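import Pool.Agent.Lib.MP_1a91b9_ntV.DJ.Joint7
import Pool.Agent.Lib.MP_1a91b9_ntV.R.DenJ7

/-!
# MP_1a91b9_nt (twists over `ℚ(√-7)`), part D: the joint density of the good sets

`okt7B`: the hypotheses of the engine for the primes outside `B`. `dsj7`: the joint density.
-/

set_option autoImplicit false
set_option linter.unusedSectionVars false

namespace Pool.Agent.Lib.MP_1a91b9_ntV

open NumberField Finset Pool.Agent.Lib.MP_1a91b9_nuT Pool.Agent.Lib.MP_1a91b9_ntQ
open Pool.Agent.Lib.MP_1a91b9_ntV.DS (cinfV)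
open Pool.Agent.Lib.MP_1a91b9_ntV.DJ
open Pool.Agent.Lib.MP_1a91b9_ntH (PS nm Sx mem_Sx)
open Pool.Agent.Lib.MP_1a91b9_ntR (nG Qi Pri sys Rcp GR cq GRB cqB c2 finite_GR dat_wt not_trW
  wt_const)

noncomputable section

/-- The hypotheses of the engine for the primes outside `B`. -/
theorem okt_off {ι : Type} [DecidableEq ι] [PS ι] {κ : Type} [Fintype κ] [DecidableEq κ]
    {D : Dat2 ι κ} {w : κ → ZMod 2} (h : OKt D w) (B : Finset ι)
    (hm : ∀ (T : Finset ι) (c : κ → ZMod 2), T ⊆ B → (T ≠ ∅ ∨ c ≠ 0) →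
      Mz B (fun q => e2 (D.ex1 T c q))) : OKt (D.off B) (cB B ∅ w) where
  tw p q hpq := by
    have h1 : ∀ q : Off B, (D.off B).dg (cB B ∅ w) q = D.dg w q.1 := by
      intro q
      have h2 := dg_cB D (empty_subset B) w q
      rw [sum_empty, add_zero] at h2
      exact h2
    rw [h1, h1]
    exact h.tw p.1 q.1 fun e => hpq (Subtype.ext e)
  an := by
    obtain ⟨⟨C1, h1⟩, ⟨C2, h2⟩, ⟨C3, k, c, hc, h3⟩⟩ := h.an
    exact ⟨⟨C1, cheb_off h1 B⟩, ⟨C2, zt_off h2 B⟩, ⟨C3, k, c, hc, bl_off h3 B⟩⟩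
  cb := by
    obtain ⟨C, hC⟩ := h.cb
    exact ⟨_, cb_off hC B⟩
  mz c hc := by
    have hne : spB c ≠ ∅ ∨ (fun j => c (Sum.inl j)) ≠ 0 := by
      by_contra hcon
      push Not at hcon
      obtain ⟨h1, h2⟩ := hcon
      apply hc
      funext j
      rcases j with j | b
      · exact congrFun h2 j
      · by_contra hb
        have h3 : b.1 ∈ spB c := mem_spB.2 ⟨b.2, hb⟩
        rw [h1] at h3
        exact notMem_empty _ h3
    intro ε hε
    obtain ⟨X₀, hX₀⟩ := hm (spB c) (fun j => c (Sum.inl j)) (spB_subset c) hne ε hε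
    refine ⟨X₀, fun X hX => ?_⟩
    have h1 := hX₀ X hX
    rw [← sum_Sx_off (ι := ι) B X fun S => ∏ q ∈ S, e2 (D.ex1 (spB c)
      (fun j => c (Sum.inl j)) q)] at h1
    have h2 : (Sx (Off B) X).filter (fun S => Disjoint S ∅) = Sx (Off B) X :=
      filter_true_of_mem fun S _ => disjoint_empty_right S
    rw [h2]
    refine le_trans (le_of_eq ?_) h1
    refine congrArg norm (sum_congr rfl fun S _ => ?_)
    rw [prod_up]
    refine prod_congr rfl fun q _ => ?_
    have h3 := ex1_off D B ∅ c q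
    rw [up_empty, empty_union] at h3
    exact congrArg e2 h3

variable [CD] [hv : V7]

theorem tw7D : Tw7 D7 := by
  intro p q hpq
  have e : ∀ q, D7.dg w7 q = D7.a q 0 := by
    intro q
    rw [w7, dg_vec3]
    ring
  rw [okt7d.tw p q hpq, e, e]

/-- The hypotheses of the engine for the primes outside `B`. -/
theorem okt7B (n : ℕ) (B : Finset Pg7) : OKt (D7.off B) (w7B B) := by
  refine okt_off okt7d B fun T c hT hc => ?_
  have h1 := (dat_wt (R := 𝓞 K) (mod7 n) (two_pow_ne7 n) (cls7 n) (wt_const _) B).mz T c hT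
    (hc.imp id fun h => not_trW (cls7 n) h)
  rw [dat_D7] at h1
  intro ε hε
  obtain ⟨X₀, hX₀⟩ := h1 ε hε
  refine ⟨X₀, fun X hX => ?_⟩
  have h2 := hX₀ X hX
  simp only [one_mul] at h2
  exact h2

/-- **The joint density of the good sets of primes.** -/
theorem dsj7 : DSJ7 := by
  intro N hN d0 d1 d2 T B hT hinj n g κ₀ hκ
  have : Finite (GR (mod7 n)) := finite_GR (mod7 n) (two_pow_ne7 n)
  let _ : Fintype (GR (mod7 n)) := Fintype.ofFinite _
  let _ : Fintype (GRB (mod7 n) B) := Fintype.ofFinite _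
  unfold DSB7
  exact joint7 tw7D (okt7B n B) (C7B n B) (h3_7B n B) (cB7 n B) (fun _ => rfl) hT hinj g hκ
    (i1 := _) (i2 := _)

end

end Pool.Agent.Lib.MP_1a91b9_ntV
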