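import Pool.Agent.Lib.MP_1a91b9_ntV.DJ.ExpJ
import Pool.Agent.Lib.MP_1a91b9_ntM.DJ.Lab

/-!
# MP_1a91b9_nt (joint density for twisted systems), part D: the expansion of the products of the powers
of the sizes of the kernels of several bordered matrices
-/

set_option autoImplicit false
set_option linter.unusedSectionVars false

namespace Pool.Agent.Lib.MP_1a91b9_ntV.DJ

open Finset Pool.Agent.Lib.MP_1a91b9_ntH Pool.Agent.Lib.MP_1a91b9_ntQ
  Pool.Agent.Lib.MP_1a91b9_ntQ.Da Pool.Agent.Lib.MP_1a91b9_ntV Pool.Agent.Lib.MP_1a91b9_ntM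

noncomputable section

variable {A : Type} [Fintype A] [DecidableEq A]

/-- The labels of the product as labels of the sum. -/
def eqL (k : A → ℕ) : LabP k ≃ Lab2 (∑ a, k a) where
  toFun := toL k
  invFun x := fun a => (fun j => x.1 (sgP k ⟨a, j⟩), fun j => x.2 (sgP k ⟨a, j⟩))
  left_inv l := by
    funext a
    refine Prod.ext (funext fun j => ?_) (funext fun j => ?_)
    · exact toL_fst l a j
    · exact toL_snd l a j
  right_inv x := by
    refine Prod.ext (funext fun i => ?_) (funext fun i => ?_)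
    · exact congrArg x.1 ((sgP k).apply_symm_apply i)
    · exact congrArg x.2 ((sgP k).apply_symm_apply i)

variable {k : A → ℕ}

theorem PhiQ_toL (l m : LabP k) : PhiQ (toL k l) (toL k m) = ∑ a, PhiQ (l a) (m a) := by
  have h1 : PhiQ (toL k l) (toL k m) = ∑ i, (toL k l).2 i * ((toL k l).1 i + (toL k m).1 i) := rfl
  rw [h1, sum_sgP]
  refine sum_congr rfl fun a _ => ?_
  have h2 : PhiQ (l a) (m a) = ∑ i, (l a).2 i * ((l a).1 i + (m a).1 i) := rfl
  rw [h2]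
  refine sum_congr rfl fun j _ => ?_
  rw [toL_fst, toL_fst, toL_snd]

variable {ι : Type} [DecidableEq ι] {κ : Type} [Fintype κ] [DecidableEq κ]
  {E F : A → Type} [∀ a, Fintype (E a)] [∀ a, DecidableEq (E a)] [∀ a, Fintype (F a)]
  [∀ a, DecidableEq (F a)]

omit [DecidableEq ι] [DecidableEq κ] [Fintype A] [DecidableEq A] in
theorem dg_fsum (D : Dat2 ι κ) (s : Finset A) (c : A → κ → ZMod 2) (q : ι) :
    D.dg (∑ a ∈ s, c a) q = ∑ a ∈ s, D.dg (c a) q := by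
  unfold Dat2.dg
  rw [sum_comm]
  refine sum_congr rfl fun j _ => ?_
  rw [Finset.sum_apply, sum_mul]

/-- The labels of the borders. -/
abbrev BLP (k : A → ℕ) (E F : A → Type) : Type := ∀ a, BL (k a) (E a) (F a)

/-- The class vector of a label. -/
def cJ (P : ∀ a, BD κ (E a) (F a)) (m : BLP k E F) (l : LabP k) : κ → ZMod 2 :=
  ∑ a, cN (P a) (m a) (l a)

/-- The same for the labels of the sum. -/
def cL (P : ∀ a, BD κ (E a) (F a)) (m : BLP k E F) (x : Lab2 (∑ a, k a)) : κ → ZMod 2 :=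
  cJ P m ((eqL k).symm x)

theorem cL_eqL (P : ∀ a, BD κ (E a) (F a)) (m : BLP k E F) (l : LabP k) :
    cL P m (eqL k l) = cJ P m l := by
  rw [cL, Equiv.symm_apply_apply]

/-- The exponent of the corners. -/
def RGJ (P : ∀ a, BD κ (E a) (F a)) (m : BLP k E F) : ZMod 2 := ∑ a, RG (P a) (m a)

/-- The product of the powers of the sizes of the kernels. -/
def kJ (D : Dat2 ι κ) (P : ∀ a, BD κ (E a) (F a)) (k : A → ℕ) (S : Finset ι) : ℕ :=
  ∏ a, kM D (P a) S ^ k a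

/-- The expansion. -/
theorem kJ_mul (D : Dat2 ι κ) (P : ∀ a, BD κ (E a) (F a)) (S : Finset ι) :
    (kJ D P k S : ℂ) * (2 ^ (∑ a, k a)) ^ S.card * ∏ a, ((2 : ℂ) ^ k a) ^ Fintype.card (F a) =
      ∑ m : BLP k E F, e2 (RGJ P m) * ∑ f : S → Lab2 (∑ a, k a),
        e2 (∑ j : S, D.dg (cL P m (f j)) j + ∑ j : S, ∑ l : S, PhiQ (f j) (f l) * D.s j l) := by
  classical
  have h1 : (kJ D P k S : ℂ) * (2 ^ (∑ a, k a)) ^ S.card *
      ∏ a, ((2 : ℂ) ^ k a) ^ Fintype.card (F a) =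
      ∏ a, ((kM D (P a) S : ℂ) ^ k a * (2 ^ k a) ^ (S.card + Fintype.card (F a))) := by
    have h2 : (2 : ℂ) ^ (∑ a, k a) = ∏ a, (2 : ℂ) ^ k a := (prod_pow_eq_pow_sum _ _ _).symm
    rw [kJ, Nat.cast_prod, prod_mul_distrib, mul_assoc, h2]
    congr 1
    · exact prod_congr rfl fun a _ => by rw [Nat.cast_pow]
    · rw [← prod_pow, ← prod_mul_distrib]
      exact prod_congr rfl fun a _ => by rw [pow_add]
  rw [h1, prod_congr rfl fun a _ => kM_pow_mul (k := k a) D (P a) S,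
    Finset.prod_univ_sum, Fintype.piFinset_univ]
  refine sum_congr rfl fun m _ => ?_
  rw [prod_mul_distrib, RGJ, e2_sum]
  congr 1
  rw [Finset.prod_univ_sum, Fintype.piFinset_univ,
    ← Equiv.sum_comp (Equiv.piComm fun (_ : S) (a : A) => Lab2 (k a)),
    ← Equiv.sum_comp (Equiv.arrowCongr (Equiv.refl S) (eqL k)).symm]
  refine sum_congr rfl fun f _ => ?_
  rw [← e2_sum, sum_add_distrib]
  congr 1
  have h3 : ∀ j : S, ∀ a, (Equiv.piComm fun (_ : S) (a : A) => Lab2 (k a))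
      ((Equiv.arrowCongr (Equiv.refl S) (eqL k)).symm f) a j = (eqL k).symm (f j) a :=
    fun _ _ => rfl
  refine congrArg₂ _ ?_ ?_
  · rw [sum_comm]
    refine sum_congr rfl fun j _ => ?_
    rw [cL, cJ, dg_fsum]
    exact sum_congr rfl fun a _ => by rw [h3]
  · rw [sum_comm]
    refine sum_congr rfl fun j _ => ?_
    rw [sum_comm]
    refine sum_congr rfl fun l _ => ?_
    rw [← sum_mul]
    congr 1
    have h4 : PhiQ (f j) (f l) = PhiQ (toL k ((eqL k).symm (f j))) (toL k ((eqL k).symm (f l))) := by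
      have h5 : ∀ x, toL k ((eqL k).symm x) = x := (eqL k).apply_symm_apply
      rw [h5, h5]
    rw [h4, PhiQ_toL]
    exact sum_congr rfl fun a _ => by rw [h3, h3]

/-- The main coefficient of the product. -/
def TNJ (k : A → ℕ) (P : ∀ a, BD κ (E a) (F a)) (w c0 : κ → ZMod 2) : ℂ :=
  TNG (RGJ (k := k) P) (cL P) w c0

/-- The main coefficient of a class. -/
def TGJ (k : A → ℕ) (P : ∀ a, BD κ (E a) (F a)) (w γ : κ → ZMod 2) : ℂ :=
  ∑ c0 : κ → ZMod 2, e2 (c0 ⬝ᵥ γ) * TNJ k P w c0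

variable [PS ι] {G : Type} [AddCommGroup G] [Fintype G]

/-- **The joint moments in a class of `G`.** -/
theorem momJ_G {D : Dat2 ι κ} {w : κ → ZMod 2} (hD : OKt D w) (C : Cl2 D G) (h3 : C.H3)
    (P : ∀ a, BD κ (E a) (F a)) (hk : 1 ≤ ∑ a, k a) (g : G) (v : ℝ) (hv0 : 0 ≤ v)
    (hv : TGJ k P w (fun j => C.A j g) = v * ∏ a, ((2 : ℂ) ^ k a) ^ Fintype.card (F a))
    (ε : ℝ) (hε : 0 < ε) : ∃ X₀ : ℕ, ∀ X : ℕ, X₀ ≤ X →
      |∑ S ∈ SG C g X, (kJ D P k S : ℝ) - v * (SG C g X).card| ≤ ε * X := by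
  have hW : ((∏ a, ((2 : ℝ) ^ k a) ^ Fintype.card (F a) : ℝ) : ℂ) =
      ∏ a, ((2 : ℂ) ^ k a) ^ Fintype.card (F a) := by
    push_cast
    rfl
  refine cls_moment C h3 (fun S => (kJ D P k S : ℝ)) (TNJ k P w)
    (∏ a, ((2 : ℝ) ^ k a) ^ Fintype.card (F a)) ?_ (fun h tr hw ε hε => ?_) g v hv0 ?_ ε hε
  · calc (1 : ℝ) = ∏ _a : A, (1 : ℝ) := prod_const_one.symm
      _ ≤ _ := prod_le_prod (fun _ _ => zero_le_one) fun a _ =>
        one_le_pow₀ (one_le_pow₀ (by norm_num))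
  · obtain ⟨X0, h0⟩ := genMo_lim hD (RGJ (k := k) P) (cL P) (fun S => (kJ D P k S : ℂ))
      (∏ a, ((2 : ℂ) ^ k a) ^ Fintype.card (F a)) (kJ_mul D P) hw hk ε hε
    refine ⟨X0, fun X hX => ?_⟩
    have h1 := h0 X hX
    rw [hW]
    exact h1
  · have h1 : TGJ k P w (fun j => C.A j g) = ∑ c0, e2 (∑ j, c0 j * C.A j g) * TNJ k P w c0 := rfl
    rw [← h1, hv, hW, mul_comm]

end

end Pool.Agent.Lib.MP_1a91b9_ntV.DJ
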