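import Pool.Agent.Lib.MP_1a91b9_ntM.DJ.Lim
import Pool.Agent.Lib.MP_1a91b9_ntV.DS.MomV

/-!
# MP_1a91b9_nt (joint density for twisted systems), part D: from the joint moments to the density of the
event that all the variables are `1`, from both sides
-/

set_option autoImplicit false
set_option linter.unusedSectionVars false

namespace Pool.Agent.Lib.MP_1a91b9_ntV.DJ

open Finset Filter Topology Pool.Agent.Lib.MP_1a91b9_ntQ Pool.Agent.Lib.MP_1a91b9_ntQ.Da
  Pool.Agent.Lib.MP_1a91b9_ntM Pool.Agent.Lib.MP_1a91b9_ntV.DS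

noncomputable section

variable {β : Type}

/-! ### Weak mean values -/

/-- The mean value of `f` over the finite sets `B X` is `v`, up to `o(#(B X) + X) / #(B X)`. -/
def WV (B : ℕ → Finset β) (f : β → ℝ) (v : ℝ) : Prop :=
  ∀ ε : ℝ, 0 < ε → ∃ X₀ : ℕ, ∀ X : ℕ, X₀ ≤ X →
    |∑ b ∈ B X, f b - v * (B X).card| ≤ ε * ((B X).card + X)

theorem WV.add {B : ℕ → Finset β} {f h : β → ℝ} {v w : ℝ} (hf : WV B f v) (hh : WV B h w) :
    WV B (fun x => f x + h x) (v + w) := by
  intro ε hε
  obtain ⟨X1, h1⟩ := hf (ε / 2) (by positivity)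
  obtain ⟨X2, h2⟩ := hh (ε / 2) (by positivity)
  refine ⟨max X1 X2, fun X hX => ?_⟩
  have h3 := h1 X (le_trans (le_max_left _ _) hX)
  have h4 := h2 X (le_trans (le_max_right _ _) hX)
  rw [sum_add_distrib]
  calc |∑ b ∈ B X, f b + ∑ b ∈ B X, h b - (v + w) * (B X).card|
      = |(∑ b ∈ B X, f b - v * (B X).card) + (∑ b ∈ B X, h b - w * (B X).card)| := by
        congr 1
        ring
    _ ≤ _ := abs_add_le _ _
    _ ≤ ε / 2 * ((B X).card + X) + ε / 2 * ((B X).card + X) := add_le_add h3 h4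
    _ = ε * ((B X).card + X) := by ring

theorem WV.smul {B : ℕ → Finset β} {f : β → ℝ} {v : ℝ} (hf : WV B f v) (a : ℝ) :
    WV B (fun x => a * f x) (a * v) := by
  intro ε hε
  obtain ⟨X1, h1⟩ := hf (ε / (|a| + 1)) (by positivity)
  refine ⟨X1, fun X hX => ?_⟩
  have h3 := h1 X hX
  rw [← mul_sum, mul_assoc, ← mul_sub, abs_mul]
  calc |a| * |∑ b ∈ B X, f b - v * (B X).card|
      ≤ (|a| + 1) * (ε / (|a| + 1) * ((B X).card + X)) := by
        refine mul_le_mul (by linarith) h3 (abs_nonneg _) (by positivity)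
    _ = ε * ((B X).card + X) := by field_simp

theorem WV.congr {B : ℕ → Finset β} {f h : β → ℝ} {v w : ℝ} (hf : WV B f v)
    (h1 : ∀ x, h x = f x) (h2 : w = v) : WV B h w := by
  rw [h2, show h = f from funext h1]
  exact hf

theorem WV.zero (B : ℕ → Finset β) : WV B (fun _ => 0) 0 := by
  intro ε hε
  refine ⟨0, fun X _ => ?_⟩
  rw [sum_const_zero, zero_mul, sub_zero, abs_zero]
  positivity

theorem WV.sum {ι : Type} {B : ℕ → Finset β} {f : ι → β → ℝ} {v : ι → ℝ} (s : Finset ι)
    (h : ∀ i ∈ s, WV B (f i) (v i)) : WV B (fun x => ∑ i ∈ s, f i x) (∑ i ∈ s, v i) := by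
  classical
  induction s using Finset.induction_on with
  | empty => exact (WV.zero B).congr (fun _ => rfl) rfl
  | insert a s ha ih =>
    exact ((h a (mem_insert_self _ _)).add (ih fun i hi => h i (mem_insert_of_mem hi))).congr
      (fun x => sum_insert ha) (sum_insert ha)

/-- From a weak mean value to the lower density. -/
theorem WV.lower {B : ℕ → Finset β} {f : β → ℝ} {v : ℝ} (h : WV B f v) {κ : ℝ} (hκ : κ < v)
    (ε : ℝ) (hε : 0 < ε) : ∃ X₀ : ℕ, ∀ X : ℕ, X₀ ≤ X →
      κ * (B X).card - ε * X ≤ ∑ b ∈ B X, f b := by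
  obtain ⟨X0, h0⟩ := h (min ε (v - κ)) (lt_min hε (by linarith))
  refine ⟨X0, fun X hX => ?_⟩
  have h1 := (abs_le.1 (h0 X hX)).1
  have h2 : min ε (v - κ) * ((B X).card + X) ≤ (v - κ) * (B X).card + ε * X := by
    rw [mul_add]
    exact add_le_add (mul_le_mul_of_nonneg_right (min_le_right _ _) (Nat.cast_nonneg _))
      (mul_le_mul_of_nonneg_right (min_le_left _ _) (Nat.cast_nonneg _))
  linarith

/-- A weak mean value from lower and upper bounds. -/
theorem WV.of_bounds {B : ℕ → Finset β} {f : β → ℝ} {v : ℝ}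
    (h : ∀ δ : ℝ, 0 < δ → ∃ (l u : β → ℝ) (vl vu : ℝ), MV B l vl ∧ MV B u vu ∧ v - δ ≤ vl ∧
      vu ≤ v + δ ∧ ∀ b, l b ≤ f b ∧ f b ≤ u b) : WV B f v := by
  intro ε hε
  obtain ⟨l, u, vl, vu, hl, hu, hvl, hvu, hb⟩ := h ε hε
  obtain ⟨X1, h1⟩ := hl ε hε
  obtain ⟨X2, h2⟩ := hu ε hε
  refine ⟨max X1 X2, fun X hX => ?_⟩
  have h3 := (abs_le.1 (h1 X (le_trans (le_max_left _ _) hX))).1
  have h4 := (abs_le.1 (h2 X (le_trans (le_max_right _ _) hX))).2
  have h5 : ∑ b ∈ B X, l b ≤ ∑ b ∈ B X, f b := sum_le_sum fun b _ => (hb b).1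
  have h6 : ∑ b ∈ B X, f b ≤ ∑ b ∈ B X, u b := sum_le_sum fun b _ => (hb b).2
  have hc : (0 : ℝ) ≤ (B X).card := Nat.cast_nonneg _
  have h7 := mul_le_mul_of_nonneg_right hvl hc
  have h8 := mul_le_mul_of_nonneg_right hvu hc
  rw [abs_le]
  constructor <;> linarith

/-! ### The density of the event -/

variable {A : Type} [Fintype A] [DecidableEq A]

/-- **From the mean values of the products of the interpolation polynomials to the density.** -/
theorem WV_prod {B : ℕ → Finset β} {x : A → β → ℕ} (hp : ∀ a b, ∃ r, x a b = 2 ^ r)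
    {s : ℕ → ℝ} {c : ℝ} (hs : Tendsto s atTop (𝓝 c))
    (hm : ∀ Kf : A → ℕ, MV B (fun b => ∏ a, pK2 (Kf a) (x a b)) (∏ a, s (Kf a))) :
    WV B (fun b => ∏ a, if x a b = 1 then (1 : ℝ) else 0) (c ^ Fintype.card A) := by
  classical
  set n := Fintype.card A with hn
  have t1 : Tendsto (fun N : ℕ => 2 * N + 1) atTop atTop :=
    tendsto_atTop_mono (fun N => by show N ≤ 2 * N + 1; omega) tendsto_id
  have t2 : Tendsto (fun N : ℕ => 2 * N) atTop atTop :=
    tendsto_atTop_mono (fun N => by show N ≤ 2 * N; omega) tendsto_id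
  have t3 := hs.comp t1
  have t4 := hs.comp t2
  have t5 := ((t3.mul (t4.pow (n - 1))).const_mul (n : ℝ)).sub
    ((t4.pow n).const_mul ((n : ℝ) - 1))
  have t6 : (n : ℝ) * (c * c ^ (n - 1)) - (n - 1) * c ^ n = c ^ n := by
    rcases Nat.eq_zero_or_pos n with h0 | h0
    · rw [h0]
      simp
    · obtain ⟨m, hm⟩ : ∃ m, n = m + 1 := ⟨n - 1, by omega⟩
      rw [hm, Nat.add_sub_cancel, pow_succ]
      push_cast
      ring
  rw [t6] at t5
  have t7 := t4.pow n
  refine WV.of_bounds fun δ hδ => ?_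
  obtain ⟨N, hN1, hN2⟩ := ((t5.eventually (lt_mem_nhds (by linarith : c ^ n - δ < c ^ n))).and
    (t7.eventually (gt_mem_nhds (by linarith : c ^ n < c ^ n + δ)))).exists
  have hodd : Odd (2 * N + 1) := ⟨N, rfl⟩
  have heven : Even (2 * N) := ⟨N, by ring⟩
  have hA : ∀ a, MV B (fun b => pK2 (2 * N + 1) (x a b) * ∏ c ∈ univ.erase a, pK2 (2 * N) (x c b))
      (s (2 * N + 1) * s (2 * N) ^ (n - 1)) := by
    intro a
    refine (hm fun c => if c = a then 2 * N + 1 else 2 * N).congr (fun b => ?_) ?_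
    · rw [← mul_prod_erase univ _ (mem_univ a), if_pos rfl]
      congr 1
      exact prod_congr rfl fun c hc => by rw [if_neg (ne_of_mem_erase hc)]
    · rw [← mul_prod_erase univ _ (mem_univ a), if_pos rfl]
      congr 1
      rw [prod_congr rfl fun c hc => by rw [if_neg (ne_of_mem_erase hc)], prod_const,
        card_erase_of_mem (mem_univ a), card_univ]
  have hB : MV B (fun b => ∏ a, pK2 (2 * N) (x a b)) (s (2 * N) ^ n) := by
    refine (hm fun _ => 2 * N).congr (fun b => rfl) ?_
    rw [prod_const, card_univ]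
  have hC := (MV.sum univ fun a _ => hA a).add (hB.smul (-((n : ℝ) - 1)))
  refine ⟨_, _, _, _, hC, hB, ?_, hN2.le, fun b => ?_⟩
  · rw [sum_const, card_univ, nsmul_eq_mul]
    have h1 : c ^ n - δ < (n : ℝ) * (s (2 * N + 1) * s (2 * N) ^ (n - 1)) -
        ((n : ℝ) - 1) * s (2 * N) ^ n := hN1
    linarith
  · have hi : ∀ a, (0 : ℝ) ≤ if x a b = 1 then (1 : ℝ) else 0 := fun a => by
      split_ifs <;> norm_num
    have hu : ∀ a, (if x a b = 1 then (1 : ℝ) else 0) ≤ pK2 (2 * N) (x a b) := by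
      intro a
      split_ifs with h
      · rw [h, Nat.cast_one, pK2_one]
      · obtain ⟨r, hr⟩ := hp a b
        have hr0 : r ≠ 0 := by
          intro h0
          rw [h0, pow_zero] at hr
          exact h hr
        rw [hr]
        push_cast
        exact (pK2_pow (2 * N) r hr0).2 heven
    have hl : ∀ a, pK2 (2 * N + 1) (x a b) ≤ if x a b = 1 then (1 : ℝ) else 0 := by
      intro a
      split_ifs with h
      · rw [h, Nat.cast_one, pK2_one]
      · obtain ⟨r, hr⟩ := hp a b
        have hr0 : r ≠ 0 := by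
          intro h0
          rw [h0, pow_zero] at hr
          exact h hr
        rw [hr]
        push_cast
        exact (pK2_pow (2 * N + 1) r hr0).1 hodd
    have h3 := bonf (fun a => pK2 (2 * N) (x a b)) (fun a => if x a b = 1 then (1 : ℝ) else 0)
      (fun a => pK2 (2 * N + 1) (x a b)) hi hu hl
    rw [← hn] at h3
    constructor
    · show ∑ a, pK2 (2 * N + 1) (x a b) * ∏ c ∈ univ.erase a, pK2 (2 * N) (x c b) +
        -((n : ℝ) - 1) * ∏ a, pK2 (2 * N) (x a b) ≤ _
      linarith
    · exact prod_le_prod (fun a _ => hi a) fun a _ => hu a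

/-! ### The interpolation polynomials -/

/-- The mean values of the products, one variable at a time. -/
theorem MV_prod_gen {B : ℕ → Finset β} {x : A → β → ℝ} {ν s : ℕ → ℝ}
    (hpK : ∀ (f y : β → ℝ) (w : ℝ), (∀ k, MV B (fun b => f b * y b ^ k) (w * ν k)) →
      ∀ K, MV B (fun b => f b * pK2 K (y b)) (w * s K))
    (hm : ∀ k : A → ℕ, MV B (fun b => ∏ a, x a b ^ k a) (∏ a, ν (k a))) (Kf : A → ℕ) :
    MV B (fun b => ∏ a, pK2 (Kf a) (x a b)) (∏ a, s (Kf a)) := by
  have key : ∀ (t : Finset A) (k : A → ℕ), MV B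
      (fun b => (∏ a ∈ t, pK2 (Kf a) (x a b)) * ∏ a ∈ univ \ t, x a b ^ k a)
      ((∏ a ∈ t, s (Kf a)) * ∏ a ∈ univ \ t, ν (k a)) := by
    intro t
    induction t using Finset.induction_on with
    | empty =>
      intro k
      refine (hm k).congr (fun b => ?_) ?_
      · rw [prod_empty, one_mul, sdiff_empty]
      · rw [prod_empty, one_mul, sdiff_empty]
    | insert a t ha ih =>
      intro k
      have hins : univ \ t = insert a (univ \ insert a t) := by
        ext b
        rw [Finset.mem_sdiff, Finset.mem_insert, Finset.mem_sdiff, Finset.mem_insert]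
        by_cases hb : b = a
        · subst hb
          simp [ha]
        · simp [hb]
      have hna : a ∉ univ \ insert a t := by
        simp
      have h1 : ∀ j : ℕ, MV B (fun b => ((∏ a ∈ t, pK2 (Kf a) (x a b)) *
          ∏ a ∈ univ \ insert a t, x a b ^ k a) * x a b ^ j)
          (((∏ a ∈ t, s (Kf a)) * ∏ a ∈ univ \ insert a t, ν (k a)) * ν j) := by
        intro j
        refine (ih (Function.update k a j)).congr (fun b => ?_) ?_
        · rw [hins, prod_insert hna, Function.update_self]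
          have h2 : ∏ c ∈ univ \ insert a t, x c b ^ Function.update k a j c =
              ∏ c ∈ univ \ insert a t, x c b ^ k c :=
            prod_congr rfl fun c hc => by
              have hca : c ≠ a := by
                intro h
                rw [h] at hc
                exact hna hc
              rw [Function.update_of_ne hca]
          rw [h2]
          ring
        · rw [hins, prod_insert hna, Function.update_self]
          have h2 : ∏ c ∈ univ \ insert a t, ν (Function.update k a j c) =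
              ∏ c ∈ univ \ insert a t, ν (k c) :=
            prod_congr rfl fun c hc => by
              have hca : c ≠ a := by
                intro h
                rw [h] at hc
                exact hna hc
              rw [Function.update_of_ne hca]
          rw [h2]
          ring
      refine (hpK _ _ _ h1 (Kf a)).congr (fun b => ?_) ?_
      · rw [prod_insert ha]
        ring
      · rw [prod_insert ha]
        ring
  refine (key univ fun _ => 0).congr (fun b => ?_) ?_
  · rw [Finset.sdiff_self, prod_empty, mul_one]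
  · rw [Finset.sdiff_self, prod_empty, mul_one]

theorem MVV_Fj {B : ℕ → Finset β} (f y : β → ℝ) (w : ℝ)
    (hm : ∀ k, MV B (fun b => f b * y b ^ k) (w * gN k 0)) (j : ℕ) :
    ∀ m : ℕ, MV B (fun b => f b * (y b ^ m * Fj2 j (y b))) (w * gN m j) := by
  induction j with
  | zero =>
    intro m
    refine (hm m).congr (fun x => ?_) rfl
    simp [Fj2]
  | succ j ih =>
    intro m
    refine ((ih (m + 1)).add ((ih m).smul (-(2 ^ j)))).congr (fun x => ?_) ?_
    · rw [Fj2, prod_range_succ, ← Fj2]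
      ring
    · rw [gN_succ]
      push_cast
      ring

theorem MVV_pK {B : ℕ → Finset β} (f y : β → ℝ) (w : ℝ)
    (hm : ∀ k, MV B (fun b => f b * y b ^ k) (w * gN k 0)) (K : ℕ) :
    MV B (fun b => f b * pK2 K (y b)) (w * sV K) := by
  induction K with
  | zero =>
    refine (hm 0).congr (fun x => ?_) ?_
    · simp [pK2]
    · simp [sV, gN_zero]
  | succ K ih =>
    refine (ih.add ((MVV_Fj f y w hm (K + 1) 0).smul
      ((-1) ^ (K + 1) / ∏ i ∈ range (K + 1), (2 ^ (i + 1) - 1)))).congr
      (fun b => ?_) ?_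
    · rw [pK2_succ]
      ring
    · rw [sV, sum_range_succ, ← sV]
      simp [gN_zero]
      ring

/-- **The density from the joint moments**, both bounds. -/
theorem WV_gN {B : ℕ → Finset β} {x : A → β → ℕ} (hp : ∀ a b, ∃ r, x a b = 2 ^ r)
    (hm : ∀ k : A → ℕ, MV B (fun b => ∏ a, (x a b : ℝ) ^ k a) (∏ a, (gN (k a) 0 : ℝ))) :
    WV B (fun b => ∏ a, if x a b = 1 then (1 : ℝ) else 0) (cinfV ^ Fintype.card A) :=
  WV_prod hp tendsto_sV fun Kf => MV_prod_gen (ν := fun k => (gN k 0 : ℝ)) (s := sV) MVV_pK hm Kf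

/-- The same for the moments of the symmetric matrices. -/
theorem WV_Nk {B : ℕ → Finset β} {x : A → β → ℕ} (hp : ∀ a b, ∃ r, x a b = 2 ^ r)
    (hm : ∀ k : A → ℕ, MV B (fun b => ∏ a, (x a b : ℝ) ^ k a) (∏ a, (Nk2 (k a) : ℝ))) :
    WV B (fun b => ∏ a, if x a b = 1 then (1 : ℝ) else 0) (cinf2 ^ Fintype.card A) :=
  WV_prod hp tendsto_sK2 fun Kf => MV_prod_gen (ν := fun k => (Nk2 k : ℝ)) (s := sK2)
    (fun f y w h K => MV_pK (f := f) (x := y) (w := w) h K) hm Kf

end

end Pool.Agent.Lib.MP_1a91b9_ntV.DJ
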