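import Pool.Agent.Lib.MP_1a91b9_ntV.DJ.Prd
import Pool.Agent.Lib.MP_1a91b9_ntV.DJ.LimV
import Pool.Agent.Lib.MP_1a91b9_ntV.DS.DenV

/-!
# MP_1a91b9_nt (joint density for twisted systems), part D: the joint density in a class

`dens_J`: the kernels of finitely many bordered matrices consist of the trivial vectors, all at the same
time, with density `cinfV ^ n`, if the class vectors of the diagonals are distinct modulo `w`.
`dens_lin`: the same for products of linear combinations of such indicators.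
-/

set_option autoImplicit false
set_option linter.unusedSectionVars false

namespace Pool.Agent.Lib.MP_1a91b9_ntV.DJ

open Finset Pool.Agent.Lib.MP_1a91b9_ntH Pool.Agent.Lib.MP_1a91b9_ntQ
  Pool.Agent.Lib.MP_1a91b9_ntQ.Da Pool.Agent.Lib.MP_1a91b9_ntV Pool.Agent.Lib.MP_1a91b9_ntM
  Pool.Agent.Lib.MP_1a91b9_ntV.DS

noncomputable section

/-- Changing the value at the empty set. -/
theorem WV.congr_ne {ι : Type} [DecidableEq ι] {B : ℕ → Finset (Finset ι)}
    {f h : Finset ι → ℝ} {v : ℝ} (hf : WV B f v)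
    (hh : ∀ X, ∀ S ∈ B X, S ≠ ∅ → h S = f S) : WV B h v := by
  classical
  intro ε hε
  obtain ⟨X0, h0⟩ := hf (ε / 2) (by positivity)
  set M : ℝ := |h ∅ - f ∅| with hM
  obtain ⟨X1, hX1⟩ := exists_nat_gt (2 * M / ε)
  refine ⟨max X0 X1, fun X hX => ?_⟩
  have h2 := h0 X (le_trans (le_max_left _ _) hX)
  have h3 : M ≤ ε / 2 * X := by
    have h4 : (X1 : ℝ) ≤ X := by exact_mod_cast le_trans (le_max_right _ _) hX
    have h5 := hX1.le.trans h4
    rw [div_le_iff₀ hε] at h5
    linarith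
  have h6 : |∑ S ∈ B X, h S - ∑ S ∈ B X, f S| ≤ M := by
    rw [← sum_sub_distrib]
    have h8 : ∑ S ∈ B X, (h S - f S) = if (∅ : Finset ι) ∈ B X then h ∅ - f ∅ else 0 := by
      split_ifs with hm
      · exact sum_eq_single_of_mem ∅ hm fun S hS hne => by rw [hh X S hS hne, sub_self]
      · exact sum_eq_zero fun S hS => by
          rw [hh X S hS fun h => hm (h ▸ hS), sub_self]
    rw [h8]
    split_ifs with hm
    · exact le_of_eq hM.symm
    · rw [abs_zero]
      exact abs_nonneg _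
  have e : ∑ S ∈ B X, h S - v * (B X).card = (∑ S ∈ B X, h S - ∑ S ∈ B X, f S) +
      (∑ S ∈ B X, f S - v * (B X).card) := by ring
  rw [e]
  refine (abs_add_le _ _).trans ?_
  have h7 : (0 : ℝ) ≤ (B X).card := Nat.cast_nonneg _
  nlinarith

variable {A : Type} [Fintype A] [DecidableEq A] {ι : Type} [DecidableEq ι] {κ : Type} [Fintype κ]
  [DecidableEq κ] {E F : A → Type} [∀ a, Fintype (E a)] [∀ a, DecidableEq (E a)]
  [∀ a, Fintype (F a)] [∀ a, DecidableEq (F a)]

/-- The number of the trivial vectors. -/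
def tv {E F : Type} [Fintype E] [DecidableEq E] [Fintype F] [DecidableEq F] (P : BD κ E F)
    (γ : κ → ZMod 2) : ℕ := tcn (Lc P) (MMt P γ)

/-- The balance of the trivial vectors of the columns and of the rows. -/
def Bal {E F : Type} [Fintype E] [DecidableEq E] [Fintype F] [DecidableEq F] (P : BD κ E F)
    (w γ : κ → ZMod 2) : Prop :=
  2 ^ Fintype.card E * trn (Lr P w γ) (MMt P γ) = 2 ^ Fintype.card F * tcn (Lc P) (MMt P γ)

variable [PS ι] {G : Type} [AddCommGroup G] [Fintype G]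

theorem cls_SG {D : Dat2 ι κ} (C : Cl2 D G) {g : G} {X : ℕ} {S : Finset ι}
    (hS : S ∈ SG C g X) : clN D S = fun j => C.A j g := by
  funext j
  show ∑ q ∈ S, D.a q j = C.A j g
  rw [← (mem_SG.1 hS).2, map_sum]
  exact sum_congr rfl fun q _ => C.ha q j

/-- The joint moments of the normalised sizes. -/
theorem mom_kV {D : Dat2 ι κ} {w : κ → ZMod 2} (hD : OKt D w) (hw : w ≠ 0) (C : Cl2 D G)
    (h3 : C.H3) (P : ∀ a, BD κ (E a) (F a)) (hS : Sep w fun a => (P a).kap) (g : G)
    (hT : ∀ a, Bal (P a) w fun j => C.A j g) (k : A → ℕ) :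
    MV (SG C g) (fun S => ∏ a, (kV D (P a) (tv (P a) fun j => C.A j g) S : ℝ) ^ k a)
      (∏ a, (gN (k a) 0 : ℝ)) := by
  classical
  intro ε hε
  obtain ⟨t, ht⟩ : ∃ t : A → ℕ, ∀ a, t a = tv (P a) fun j => C.A j g := ⟨_, fun _ => rfl⟩
  have ht2 : ∀ a, ∃ r, t a = 2 ^ r := fun a => by
    rw [ht]
    exact tcn_pow _ _
  simp only [← ht]
  by_cases hk : 1 ≤ ∑ a, k a
  · set Fn : Finset ι → ℝ := fun S => ∏ a, (kV D (P a) (t a) S : ℝ) ^ k a with hF
    set T : ℝ := ∏ a, (t a : ℝ) ^ k a with hTd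
    have ht1 : ∀ a, (1 : ℝ) ≤ t a := by
      intro a
      obtain ⟨r, hr⟩ := ht2 a
      rw [hr]
      push_cast
      exact one_le_pow₀ (by norm_num)
    have hT1 : 1 ≤ T := by
      calc (1 : ℝ) = ∏ _a : A, (1 : ℝ) := prod_const_one.symm
        _ ≤ _ := prod_le_prod (fun _ _ => zero_le_one) fun a _ => one_le_pow₀ (ht1 a)
    have hnu : ((∏ a, (tcn (Lc (P a)) (MMt (P a) fun j => C.A j g) ^ k a * gN (k a) 0) : ℕ) : ℝ) =
        T * ∏ a, (gN (k a) 0 : ℝ) := by
      rw [hTd, ← prod_mul_distrib]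
      push_cast
      exact prod_congr rfl fun a _ => by rw [ht]; rfl
    obtain ⟨X0, h0⟩ := momJ_G (k := k) hD C h3 P hk g
      ((∏ a, (tcn (Lc (P a)) (MMt (P a) fun j => C.A j g) ^ k a * gN (k a) 0) : ℕ) : ℝ)
      (Nat.cast_nonneg _) (by
        rw [TGJ_eq k P hw hS _ hT]
        push_cast
        rfl) (ε / 2) (by positivity)
    rw [hnu] at h0
    have hmul : ∀ X : ℕ, ∀ S ∈ SG C g X, S ≠ ∅ → (kJ D P k S : ℝ) = T * Fn S := by
      intro X S hS hne
      rw [kJ, Nat.cast_prod, hTd, hF, ← prod_mul_distrib]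
      refine prod_congr rfl fun a _ => ?_
      have h6 : t a ≤ kM D (P a) S := by
        rw [ht, tv, ← cls_SG C hS]
        exact tcn_le D (P a) hne
      rw [kV_mul D (P a) (ht2 a) h6]
      push_cast
      rw [mul_pow]
    set M : ℝ := |T * Fn ∅ - (kJ D P k ∅ : ℝ)| with hM
    obtain ⟨X1, hX1⟩ := exists_nat_gt (2 * M / ε)
    refine ⟨max X0 X1, fun X hX => ?_⟩
    have h2 := h0 X (le_trans (le_max_left _ _) hX)
    have h3' : M ≤ ε / 2 * X := by
      have h4 : (X1 : ℝ) ≤ X := by exact_mod_cast le_trans (le_max_right _ _) hX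
      have h5 := hX1.le.trans h4
      rw [div_le_iff₀ hε] at h5
      linarith
    have h6 : |T * ∑ S ∈ SG C g X, Fn S - ∑ S ∈ SG C g X, (kJ D P k S : ℝ)| ≤ M := by
      rw [mul_sum, ← sum_sub_distrib]
      have h8 : ∑ S ∈ SG C g X, (T * Fn S - (kJ D P k S : ℝ)) =
          if (∅ : Finset ι) ∈ SG C g X then T * Fn ∅ - (kJ D P k ∅ : ℝ) else 0 := by
        split_ifs with hm
        · exact sum_eq_single_of_mem ∅ hm fun S hS hne => by rw [hmul X S hS hne, sub_self]
        · exact sum_eq_zero fun S hS => by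
            rw [hmul X S hS fun h => hm (h ▸ hS), sub_self]
      rw [h8]
      split_ifs with hm
      · exact le_of_eq hM.symm
      · rw [abs_zero]
        exact abs_nonneg _
    have h9 : |T * (∑ S ∈ SG C g X, Fn S - (∏ a, (gN (k a) 0 : ℝ)) * (SG C g X).card)| ≤
        ε * X := by
      have e : T * (∑ S ∈ SG C g X, Fn S - (∏ a, (gN (k a) 0 : ℝ)) * (SG C g X).card) =
          (T * ∑ S ∈ SG C g X, Fn S - ∑ S ∈ SG C g X, (kJ D P k S : ℝ)) +
          (∑ S ∈ SG C g X, (kJ D P k S : ℝ) -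
            (T * ∏ a, (gN (k a) 0 : ℝ)) * (SG C g X).card) := by
        ring
      rw [e]
      refine (abs_add_le _ _).trans ?_
      linarith
    rw [abs_mul, abs_of_pos (by linarith : 0 < T)] at h9
    exact (le_mul_of_one_le_left (abs_nonneg _) hT1).trans h9
  · have hk0 : ∀ a, k a = 0 := fun a => by
      have h1 : k a ≤ ∑ a, k a := single_le_sum (fun _ _ => Nat.zero_le _) (mem_univ a)
      omega
    refine ⟨0, fun X _ => ?_⟩
    have h1 : ∀ S, ∏ a, (kV D (P a) (t a) S : ℝ) ^ k a = 1 := fun S =>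
      prod_eq_one fun a _ => by rw [hk0 a, pow_zero]
    have h2 : ∏ a, (gN (k a) 0 : ℝ) = 1 := prod_eq_one fun a _ => by
      rw [hk0 a, gN_zero, Nat.cast_one]
    simp only [h1, h2, sum_const, nsmul_eq_mul, mul_one, one_mul, sub_self, abs_zero]
    positivity

/-- The indicator of the minimal kernel. -/
def gd (D : Dat2 ι κ) {E F : Type} [Fintype E] [DecidableEq E] [Fintype F] [DecidableEq F]
    (P : BD κ E F) (γ : κ → ZMod 2) (S : Finset ι) : ℝ :=
  if kM D P S = tv P γ then 1 else 0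

/-- **The joint density in a class.** -/
theorem dens_J {D : Dat2 ι κ} {w : κ → ZMod 2} (hD : OKt D w) (hw : w ≠ 0) (C : Cl2 D G)
    (h3 : C.H3) (P : ∀ a, BD κ (E a) (F a)) (hS : Sep w fun a => (P a).kap) (g : G)
    (hT : ∀ a, Bal (P a) w fun j => C.A j g) :
    WV (SG C g) (fun S => ∏ a, gd D (P a) (fun j => C.A j g) S) (cinfV ^ Fintype.card A) := by
  have h1 := WV_gN (x := fun a S => kV D (P a) (tv (P a) fun j => C.A j g) S)
    (fun a S => ⟨_, rfl⟩) (mom_kV hD hw C h3 P hS g hT)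
  refine h1.congr_ne fun X S hS hne => ?_
  refine prod_congr rfl fun a _ => ?_
  have h6 : tv (P a) (fun j => C.A j g) ≤ kM D (P a) S := by
    rw [tv, ← cls_SG C hS]
    exact tcn_le D (P a) hne
  have h7 : kM D (P a) S = tv (P a) (fun j => C.A j g) *
      kV D (P a) (tv (P a) fun j => C.A j g) S := kV_mul D (P a) (tcn_pow _ _) h6
  obtain ⟨r, hr⟩ : ∃ r, tv (P a) (fun j => C.A j g) = 2 ^ r := tcn_pow _ _
  have h8 : 0 < tv (P a) fun j => C.A j g := by
    rw [hr]
    positivity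
  rw [gd]
  refine if_congr ⟨fun h => ?_, fun h => ?_⟩ rfl rfl
  · have h9 : tv (P a) (fun j => C.A j g) * kV D (P a) (tv (P a) fun j => C.A j g) S =
        tv (P a) (fun j => C.A j g) * 1 := by
      rw [← h7, mul_one]
      exact h
    exact Nat.eq_of_mul_eq_mul_left h8 h9
  · rw [h7, h, mul_one]

/-- **The density for products of linear combinations of indicators.** The indicator `f b` of the
block `b` is the combination of the indicators of the systems `P b i` with the coefficients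
`ε b i`; systems of different blocks have class vectors which are distinct modulo `w`. -/
theorem dens_lin {B : Type} [Fintype B] [DecidableEq B] {I : B → Type} [∀ b, Fintype (I b)]
    [∀ b, DecidableEq (I b)] {E F : ∀ b, I b → Type} [∀ b i, Fintype (E b i)]
    [∀ b i, DecidableEq (E b i)] [∀ b i, Fintype (F b i)] [∀ b i, DecidableEq (F b i)]
    {D : Dat2 ι κ} {w : κ → ZMod 2} (hD : OKt D w) (hw : w ≠ 0) (C : Cl2 D G)
    (h3 : C.H3) (P : ∀ b i, BD κ (E b i) (F b i))
    (hS : ∀ b b', b ≠ b' → ∀ i i', (P b i).kap + (P b' i').kap ≠ 0 ∧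
      (P b i).kap + (P b' i').kap ≠ w) (g : G)
    (hT : ∀ b i, Bal (P b i) w fun j => C.A j g) (ε : ∀ b, I b → ℝ)
    (f : B → Finset ι → ℝ) (hf : ∀ X, ∀ S ∈ SG C g X, S ≠ ∅ → ∀ b,
      f b S = ∑ i, ε b i * gd D (P b i) (fun j => C.A j g) S) :
    WV (SG C g) (fun S => ∏ b, f b S) (∏ b, ((∑ i, ε b i) * cinfV)) := by
  classical
  have h1 : ∀ σ : ∀ b, I b, WV (SG C g)
      (fun S => (∏ b, ε b (σ b)) * ∏ b, gd D (P b (σ b)) (fun j => C.A j g) S)
      ((∏ b, ε b (σ b)) * cinfV ^ Fintype.card B) := fun σ =>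
    (dens_J hD hw C h3 (fun b => P b (σ b)) (fun a b hab => hS a b hab _ _) g
      fun b => hT b (σ b)).smul _
  have h2 := WV.sum univ fun σ _ => h1 σ
  refine WV.congr_ne (h2.congr (fun _ => rfl) ?_) fun X S hS hne => ?_
  · rw [← sum_mul]
    have h4 : ∑ σ : (∀ b, I b), ∏ b, ε b (σ b) = ∏ b, ∑ i, ε b i := by
      rw [Finset.prod_univ_sum, Fintype.piFinset_univ]
    rw [h4, prod_mul_distrib, prod_const, card_univ]
  · rw [prod_congr rfl fun b _ => hf X S hS hne b, Finset.prod_univ_sum, Fintype.piFinset_univ]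
    exact sum_congr rfl fun σ _ => prod_mul_distrib

end

end Pool.Agent.Lib.MP_1a91b9_ntV.DJ
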