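import Pool.Agent.Lib.MP_1a91b9_ntV.DJ.SysJ
import Pool.Agent.Lib.MP_1a91b9_ntV.DS.Tot

/-!
# MP_1a91b9_nt (joint density for twisted systems), part D: a maximal unlinked set which contributes is a
product over the matrices, if the class vectors of the diagonals are distinct modulo `w`
-/

set_option autoImplicit false
set_option linter.unusedSectionVars false

namespace Pool.Agent.Lib.MP_1a91b9_ntV.DJ

open Finset Pool.Agent.Lib.MP_1a91b9_ntH Pool.Agent.Lib.MP_1a91b9_ntQ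
  Pool.Agent.Lib.MP_1a91b9_ntQ.Da Pool.Agent.Lib.MP_1a91b9_ntV Pool.Agent.Lib.MP_1a91b9_ntM
  Pool.Agent.Lib.MP_1a91b9_ntV.DS

noncomputable section

variable {κ : Type} [Fintype κ] [DecidableEq κ]

open Classical in
/-- The contribution of a maximal unlinked set, with a weaker hypothesis. -/
theorem mainU2 {k : ℕ} {U : Finset (Lab2 k)} (hU : U ∈ UsN k) {u : Lab2 k} (hu : u ∈ U)
    {w : κ → ZMod 2} (hw : w ≠ 0) (γ : κ → ZMod 2) (c : Lab2 k → κ → ZMod 2)
    (hc : (∃ s : Lab2 k → ZMod 2, ∀ l ∈ U, c l + c u = s l • w) → ∀ h1 ∈ sh2 u U,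
      ∀ h2 ∈ sh2 u U, c u + c (h1 + u) + c (h2 + u) + c (h1 + h2 + u) = 0) :
    ∑ c0 : κ → ZMod 2, e2 (c0 ⬝ᵥ γ) * ∑ ce : Lab2 k → ZMod 2,
      Fh PhiQ ce * (if ∀ l ∈ U, c0 + c l + ce l • w = 0 then 1 else 0) =
      if bb0 (sh2 u U) ∧ ∀ l ∈ U, c l + c u = ((1 + w ⬝ᵥ γ) * (u.2 ⬝ᵥ (l.1 + u.1))) • w
        then e2 (c u ⬝ᵥ γ) else 0 := by
  by_cases hex : ∃ s : Lab2 k → ZMod 2, ∀ l ∈ U, c l + c u = s l • w
  · exact mainU hU hu hw γ c (hc hex)
  · rw [if_neg fun h => hex ⟨_, h.2⟩]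
    refine sum_eq_zero fun c0 _ => ?_
    rw [sum_eq_zero fun ce _ => ?_, mul_zero]
    rw [if_neg fun h => hex ⟨fun l => ce l + ce u, fun l hl => ?_⟩, mul_zero]
    have e1 := h l hl
    have e2 := h u hu
    have e3 : c0 + c0 = 0 := fun_add_self c0
    have e4 : c l + c u + (ce l + ce u) • w = 0 := by
      have e5 : c l + c u + (ce l + ce u) • w = (c0 + c l + ce l • w) + (c0 + c u + ce u • w) +
          (c0 + c0) := by
        rw [e3, add_zero, add_smul]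
        have e6 : (c0 + c l + ce l • w) + (c0 + c u + ce u • w) =
            (c0 + c0) + (c l + c u + (ce l • w + ce u • w)) := by abel
        rw [e6, e3, zero_add]
      rw [e5, e1, e2, e3]
      simp
    funext j
    exact eq_of_add (congrFun e4 j)

section Four

variable {E : Type} [Fintype E] [DecidableEq E] {F : Type} [Fintype F] [DecidableEq F]

/-- The second difference of the class vector of a label. -/
theorem cN_four {k : ℕ} (P : BD κ E F) (m : BL k E F) (u x y : Lab2 k) (j : κ) :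
    cN P m u j + cN P m (x + u) j + cN P m (y + u) j + cN P m (x + y + u) j =
      P.kap j * B2 x y := by
  unfold cN
  simp only [Q2_add, B2_add', Prod.fst_add, Prod.snd_add, add_dotProduct, dotProduct_add, mul_add,
    sum_add_distrib]
  linear_combination (2 * (P.kap j * Q2 u) + P.kap j * Q2 x + P.kap j * Q2 y +
    P.kap j * B2 x u + P.kap j * B2 y u + 2 * ∑ e, P.be e j * (u.2 ⬝ᵥ m.1 e) +
    2 * ∑ f, P.bf f j * (m.2 f ⬝ᵥ u.1) + ∑ e, P.be e j * (x.2 ⬝ᵥ m.1 e) +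
    ∑ e, P.be e j * (y.2 ⬝ᵥ m.1 e) + ∑ f, P.bf f j * (m.2 f ⬝ᵥ x.1) +
    ∑ f, P.bf f j * (m.2 f ⬝ᵥ y.1)) * two0

end Four

variable {A : Type} [Fintype A] [DecidableEq A] {k : A → ℕ}
  {E F : A → Type} [∀ a, Fintype (E a)] [∀ a, DecidableEq (E a)] [∀ a, Fintype (F a)]
  [∀ a, DecidableEq (F a)]

theorem cJ_apply (P : ∀ a, BD κ (E a) (F a)) (m : BLP k E F) (l : LabP k) (j : κ) :
    cJ P m l j = ∑ a, cN (P a) (m a) (l a) j := by
  rw [cJ, Finset.sum_apply]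

theorem cJ_four (P : ∀ a, BD κ (E a) (F a)) (m : BLP k E F) (u x y : LabP k) (j : κ) :
    cJ P m u j + cJ P m (x + u) j + cJ P m (y + u) j + cJ P m (x + y + u) j =
      ∑ a, (P a).kap j * B2 (x a) (y a) := by
  simp only [cJ_apply, ← sum_add_distrib]
  exact sum_congr rfl fun a _ => cN_four (P a) (m a) (u a) (x a) (y a) j

/-- The class vectors are distinct modulo `w`. -/
def Sep (w : κ → ZMod 2) (kap : A → κ → ZMod 2) : Prop :=
  ∀ a b, a ≠ b → kap a + kap b ≠ 0 ∧ kap a + kap b ≠ w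

/-- The values of the linear forms which vanish on `w`. -/
def sepF (w : κ → ZMod 2) (kap : A → κ → ZMod 2) (a : A)
    (φ : {φ : κ → ZMod 2 // φ ⬝ᵥ w = 0}) : ZMod 2 := φ.1 ⬝ᵥ kap a

theorem exists_form {w v : κ → ZMod 2} (hw : w ≠ 0) (hv : v ≠ 0) (hvw : v ≠ w) :
    ∃ φ : κ → ZMod 2, φ ⬝ᵥ w = 0 ∧ φ ⬝ᵥ v = 1 := by
  obtain ⟨j0, hj0⟩ := Function.ne_iff.1 hw
  have wj : w j0 = 1 := z2_ne hj0
  have h1 : v + v j0 • w ≠ 0 := by
    intro h
    rcases z2 (v j0) with h2 | h2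
    · rw [h2, zero_smul, add_zero] at h
      exact hv h
    · rw [h2, one_smul] at h
      exact hvw (funext fun j => eq_of_add (congrFun h j))
  obtain ⟨j1, hj1⟩ := Function.ne_iff.1 h1
  have h2 : v j1 + v j0 * w j1 = 1 := z2_ne hj1
  refine ⟨Pi.single j1 1 + w j1 • Pi.single j0 1, ?_, ?_⟩
  · rw [add_dotProduct, smul_dotProduct, single_dotProduct, single_dotProduct, wj, smul_eq_mul,
      one_mul, mul_one, mul_one]
    exact z2_add_self _
  · rw [add_dotProduct, smul_dotProduct, single_dotProduct, single_dotProduct, smul_eq_mul,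
      one_mul, one_mul, mul_comm]
    exact h2

theorem sepF_inj {w : κ → ZMod 2} (hw : w ≠ 0) {kap : A → κ → ZMod 2} (hS : Sep w kap) :
    Function.Injective (sepF w kap) := by
  intro a b hab
  by_contra hne
  obtain ⟨h1, h2⟩ := hS a b hne
  obtain ⟨φ, h3, h4⟩ := exists_form hw h1 h2
  have h5 := congrFun hab ⟨φ, h3⟩
  have h6 : φ ⬝ᵥ kap a = φ ⬝ᵥ kap b := h5
  rw [dotProduct_add, h6, z2_add_self] at h4
  exact zero_ne_one h4

/-- The labels of the product which are in `W`. -/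
def pre (k : A → ℕ) (W : Finset (Lab2 (∑ a, k a))) : Finset (LabP k) :=
  univ.filter fun l => toL k l ∈ W

theorem mem_pre {W : Finset (Lab2 (∑ a, k a))} {l : LabP k} : l ∈ pre k W ↔ toL k l ∈ W := by
  rw [pre, mem_filter]
  exact ⟨fun h => h.2, fun h => ⟨mem_univ _, h⟩⟩

theorem imL_pre (W : Finset (Lab2 (∑ a, k a))) : imL (pre k W) = W := by
  ext x
  rw [imL, mem_image]
  constructor
  · rintro ⟨l, hl, rfl⟩
    exact mem_pre.1 hl
  · intro hx
    refine ⟨(eqL k).symm x, mem_pre.2 ?_, (eqL k).apply_symm_apply x⟩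
    have h1 : toL k ((eqL k).symm x) = x := (eqL k).apply_symm_apply x
    rw [h1]
    exact hx

theorem MxP_pre {W : Finset (Lab2 (∑ a, k a))} (hW : Mx2 W) : MxP (pre k W) where
  unl := by
    intro l hl m hm
    rw [← Q2_toL, toL_sub]
    exact hW.unl _ (mem_pre.1 hl) _ (mem_pre.1 hm)
  card := by
    rw [← card_imL, imL_pre, hW.card, prod_two_pow]
  zero := mem_pre.2 hW.zero

theorem fm_ia (a : A) (l : LabP k) : fm (ia a) l = Pi.single a (l a) := by
  funext b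
  by_cases h : b = a
  · subst h
    rw [fm, ia, Pi.single_eq_same, one_smul, Pi.single_eq_same]
  · rw [fm, ia, Pi.single_eq_of_ne h, zero_smul, Pi.single_eq_of_ne h]

/-- The projections preserve `W`. -/
theorem block_mem {w : κ → ZMod 2} (hw : w ≠ 0) {kap : A → κ → ZMod 2} (hS : Sep w kap)
    {W : Finset (Lab2 (∑ a, k a))} (hW : Mx2 W)
    (hst : ∀ φ : κ → ZMod 2, φ ⬝ᵥ w = 0 → ∀ x ∈ pre k W, ∀ y ∈ pre k W,
      ∑ a, (φ ⬝ᵥ kap a) * B2 (x a) (y a) = 0) (a : A) {l : LabP k} (hl : l ∈ pre k W) :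
    (Pi.single a (l a) : LabP k) ∈ pre k W := by
  rw [← fm_ia]
  exact (MxP_pre hW).fm_mem (sepF_inj hw hS) (fun φ x hx y hy => hst φ.1 φ.2 x hx y hy) a hl

theorem block_B2 {w : κ → ZMod 2} (hw : w ≠ 0) {kap : A → κ → ZMod 2} (hS : Sep w kap)
    {W : Finset (Lab2 (∑ a, k a))} (hW : Mx2 W)
    (hst : ∀ φ : κ → ZMod 2, φ ⬝ᵥ w = 0 → ∀ x ∈ pre k W, ∀ y ∈ pre k W,
      ∑ a, (φ ⬝ᵥ kap a) * B2 (x a) (y a) = 0) (a : A) {l m : LabP k} (hl : l ∈ pre k W)
    (hm : m ∈ pre k W) : B2 (l a) (m a) = 0 := by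
  have h1 := block_mem hw hS hW hst a hl
  have h2 := ((MxP_pre hW).mem_iff.1 h1) m hm
  rw [BP, sum_eq_single a] at h2
  · rwa [Pi.single_eq_same] at h2
  · intro b _ hb
    rw [Pi.single_eq_of_ne hb, B2_comm, B2_zero]
  · exact fun h => absurd (mem_univ _) h

theorem form_sum {w : κ → ZMod 2} {c : κ → ZMod 2} {φ : κ → ZMod 2} (hφ : φ ⬝ᵥ w = 0)
    {t : ZMod 2} (h : c = t • w) : φ ⬝ᵥ c = 0 := by
  rw [h, dotProduct_smul, hφ, smul_zero]

/-- From the values on the base set to the linear forms. -/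
theorem hst_of (P : ∀ a, BD κ (E a) (F a)) (m : BLP k E F) {w : κ → ZMod 2}
    {W : Finset (Lab2 (∑ a, k a))} (hW : Mx2 W) (u : LabP k)
    (hs : ∃ s : LabP k → ZMod 2, ∀ h ∈ pre k W, cJ P m (h + u) + cJ P m u = s h • w)
    (φ : κ → ZMod 2) (hφ : φ ⬝ᵥ w = 0) (x : LabP k) (hx : x ∈ pre k W) (y : LabP k)
    (hy : y ∈ pre k W) : ∑ a, (φ ⬝ᵥ (P a).kap) * B2 (x a) (y a) = 0 := by
  obtain ⟨s, hs⟩ := hs
  have hxy := (MxP_pre hW).add_mem hx hy
  have h0 := (MxP_pre hW).zero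
  have h1 : cJ P m u + cJ P m (x + u) + cJ P m (y + u) + cJ P m (x + y + u) =
      (s x + s y + s (x + y)) • w := by
    have e1 := hs x hx
    have e2 := hs y hy
    have e3 := hs _ hxy
    have e4 := fun_add_self (cJ P m u)
    rw [add_smul, add_smul, ← e1, ← e2, ← e3]
    have e5 : cJ P m (x + u) + cJ P m u + (cJ P m (y + u) + cJ P m u) +
        (cJ P m (x + y + u) + cJ P m u) = (cJ P m u + cJ P m (x + u) + cJ P m (y + u) +
          cJ P m (x + y + u)) + (cJ P m u + cJ P m u) := by abel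
    rw [e5, e4, add_zero]
  have h2 := form_sum hφ h1
  have h3 : φ ⬝ᵥ (cJ P m u + cJ P m (x + u) + cJ P m (y + u) + cJ P m (x + y + u)) =
      ∑ a, (φ ⬝ᵥ (P a).kap) * B2 (x a) (y a) := by
    have h4 : cJ P m u + cJ P m (x + u) + cJ P m (y + u) + cJ P m (x + y + u) =
        fun j => ∑ a, (P a).kap j * B2 (x a) (y a) := funext fun j => cJ_four P m u x y j
    rw [h4, dotProduct]
    simp only [mul_sum]
    rw [sum_comm]
    refine sum_congr rfl fun a _ => ?_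
    rw [dotProduct, sum_mul]
    exact sum_congr rfl fun j _ => by ring
  rw [← h3]
  exact h2

/-- The hypothesis of `mainU2`. -/
theorem hc_of (P : ∀ a, BD κ (E a) (F a)) (m : BLP k E F) {w : κ → ZMod 2} (hw : w ≠ 0)
    (hS : Sep w fun a => (P a).kap) {U : Finset (Lab2 (∑ a, k a))} (hU : U ∈ UsN (∑ a, k a))
    {u : Lab2 (∑ a, k a)} (hu : u ∈ U)
    (hex : ∃ s : Lab2 (∑ a, k a) → ZMod 2, ∀ l ∈ U, cL P m l + cL P m u = s l • w) :
    ∀ h1 ∈ sh2 u U, ∀ h2 ∈ sh2 u U,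
      cL P m u + cL P m (h1 + u) + cL P m (h2 + u) + cL P m (h1 + h2 + u) = 0 := by
  obtain ⟨s, hs⟩ := hex
  have hW := mx_sh hU hu
  obtain ⟨u', rfl⟩ := (eqL k).surjective u
  have hadd : ∀ l m : LabP k, eqL k l + eqL k m = eqL k (l + m) := fun _ _ => rfl
  have hs' : ∃ s : LabP k → ZMod 2, ∀ h ∈ pre k (sh2 (eqL k u') U),
      cJ P m (h + u') + cJ P m u' = s h • w := by
    refine ⟨fun h => s (eqL k (h + u')), fun h hh => ?_⟩
    have h1 := hs (eqL k (h + u')) (mem_sh2.1 (mem_pre.1 hh))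
    rw [cL_eqL, cL_eqL] at h1
    exact h1
  have hst := hst_of P m hW u' hs'
  intro h1 m1 h2 m2
  obtain ⟨x, rfl⟩ := (eqL k).surjective h1
  obtain ⟨y, rfl⟩ := (eqL k).surjective h2
  simp only [hadd, cL_eqL]
  have hx : x ∈ pre k (sh2 (eqL k u') U) := mem_pre.2 m1
  have hy : y ∈ pre k (sh2 (eqL k u') U) := mem_pre.2 m2
  funext j
  have h3 := cJ_four P m u' x y j
  refine h3.trans (sum_eq_zero fun a _ => ?_)
  rw [block_B2 hw hS hW hst a hx hy, mul_zero]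

end

end Pool.Agent.Lib.MP_1a91b9_ntV.DJ
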