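import Pool.Agent.Lib.MP_1a91b9_ntV.D.ClsN

/-!
# MP_1a91b9_nt (joint density for twisted systems), part D: the limit of the weighted mean values of a
quantity with an expansion over the labels
-/

set_option autoImplicit false
set_option linter.unusedSectionVars false

namespace Pool.Agent.Lib.MP_1a91b9_ntV.DJ

open Finset Pool.Agent.Lib.MP_1a91b9_ntH Pool.Agent.Lib.MP_1a91b9_ntQ
  Pool.Agent.Lib.MP_1a91b9_ntQ.Da Pool.Agent.Lib.MP_1a91b9_ntV

noncomputable section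

variable {ι : Type} [DecidableEq ι] {κ : Type} [Fintype κ] [DecidableEq κ] {K : ℕ}
  {M : Type} [Fintype M]

/-- The class vector of a label with all the terms. -/
def ccG (cf : M → Lab2 K → κ → ZMod 2) (w c0 : κ → ZMod 2) (m : M) (ce : Lab2 K → ZMod 2)
    (l : Lab2 K) : κ → ZMod 2 := c0 + cf m l + ce l • w

/-- The main coefficient. -/
def TNG (rf : M → ZMod 2) (cf : M → Lab2 K → κ → ZMod 2) (w c0 : κ → ZMod 2) : ℂ :=
  ∑ m : M, ∑ ce : Lab2 K → ZMod 2, e2 (rf m) * Fh PhiQ ce *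
    ∑ U ∈ UsN K, iN (ccG cf w c0 m ce) U

open Classical in
theorem sum_iNG (tr : (κ → ZMod 2) → Prop) (cf : M → Lab2 K → κ → ZMod 2) (w : κ → ZMod 2) (m : M)
    (ce : Lab2 K → ZMod 2) {U : Finset (Lab2 K)} (hU : U ∈ UsN K) :
    ∑ c0 ∈ univ.filter tr, iN (ccG cf w c0 m ce) U = mN tr (ccG cf w 0 m ce) U := by
  have hneU : U.Nonempty := by
    rw [← card_pos, (mem_UsN.1 hU).2]; positivity
  obtain ⟨l0, hl0⟩ := hneU
  have h5 : ∀ x y : ZMod 2, x + y = 0 ↔ y = x := by decide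
  have key : ∀ c0, (∀ l ∈ U, ccG cf w c0 m ce l = 0) ↔ ∀ l ∈ U, ccG cf w 0 m ce l = c0 := by
    intro c0
    refine forall_congr' fun l => forall_congr' fun _ => ?_
    unfold ccG
    constructor
    · intro h
      funext j
      have := congrFun h j
      simp only [Pi.add_apply, Pi.zero_apply, zero_add] at this ⊢
      rw [add_assoc] at this
      exact (h5 _ _).1 this
    · intro h
      funext j
      have := congrFun h j
      simp only [Pi.add_apply, Pi.zero_apply, zero_add] at this ⊢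
      rw [add_assoc]
      exact (h5 _ _).2 this
  unfold iN mN
  simp only [key]
  by_cases h : ∃ c1, tr c1 ∧ ∀ l ∈ U, ccG cf w 0 m ce l = c1
  · rw [if_pos h]
    obtain ⟨c1, h1, h2⟩ := h
    rw [sum_eq_single_of_mem c1 (mem_filter.2 ⟨mem_univ _, h1⟩), if_pos h2]
    intro c0 _ hne
    refine if_neg fun h3 => hne ?_
    rw [← h3 l0 hl0, ← h2 l0 hl0]
  · rw [if_neg h]
    refine sum_eq_zero fun c0 hc0 => if_neg fun h3 => h ⟨c0, (mem_filter.1 hc0).2, h3⟩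

variable [PS ι]

/-- The expansion after the reciprocity law. -/
theorem genMo_eq (D : Dat2 ι κ) {w : κ → ZMod 2}
    (tw : ∀ p q, p ≠ q → D.s p q + D.s q p = D.dg w p * D.dg w q) (rf : M → ZMod 2)
    (cf : M → Lab2 K → κ → ZMod 2) (Kf : Finset ι → ℂ) (W : ℂ)
    (hK : ∀ S : Finset ι, Kf S * (2 ^ K) ^ S.card * W = ∑ m : M, e2 (rf m) * ∑ f : S → Lab2 K,
      e2 (∑ j : S, D.dg (cf m (f j)) j + ∑ j : S, ∑ l : S, PhiQ (f j) (f l) * D.s j l))
    (h : ι → ℂ) (X : ℕ) :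
    (∑ S ∈ Sx ι X, (∏ q ∈ S, h q) * Kf S) * W =
      ∑ m : M, ∑ ce : Lab2 K → ZMod 2, e2 (rf m) * Fh PhiQ ce *
        ∑ S ∈ Sx ι X, ∑ f : S → Lab2 K, (∏ j : S, (LN D h (ccG cf w 0 m ce)).g (f j) j) *
          e2 (∑ j : S, ∑ l : S, (LN D h (ccG cf w 0 m ce)).Phi (f j) (f l) * D.s j l) := by
  have hk : ((2 : ℂ) ^ K) ≠ 0 := pow_ne_zero _ (by norm_num)
  have h1 : ∀ S ∈ Sx ι X, (∏ q ∈ S, h q) * Kf S * W =
      ∑ m : M, ∑ ce : Lab2 K → ZMod 2, e2 (rf m) * Fh PhiQ ce *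
        ∑ f : S → Lab2 K, (∏ j : S, (LN D h (ccG cf w 0 m ce)).g (f j) j) *
          e2 (∑ j : S, ∑ l : S, (LN D h (ccG cf w 0 m ce)).Phi (f j) (f l) * D.s j l) := by
    intro S _
    have h5 : ((2 ^ K : ℂ)⁻¹) ^ S.card * (2 ^ K) ^ S.card = 1 := by
      rw [← mul_pow, inv_mul_cancel₀ hk, one_pow]
    have h4 : (∏ q ∈ S, h q) * Kf S * W = ((2 ^ K : ℂ)⁻¹) ^ S.card * (∏ q ∈ S, h q) *
          (Kf S * (2 ^ K) ^ S.card * W) := by
      linear_combination (-((∏ q ∈ S, h q)) * Kf S * W) * h5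
    rw [h4, hK S, mul_sum]
    refine sum_congr rfl fun m _ => ?_
    have h6 : ∀ f : S → Lab2 K,
        e2 (∑ j : S, D.dg (cf m (f j)) j + ∑ j : S, ∑ l : S, PhiQ (f j) (f l) * D.s j l) =
        ∑ ce : Lab2 K → ZMod 2, Fh PhiQ ce * (e2 (∑ j : S, D.dg (cf m (f j)) j) *
          e2 (∑ j : S, ce (f j) * D.dg w j) *
          e2 (∑ j : S, ∑ l : S, Phi1 PhiQ (f j) (f l) * D.s j l)) := by
      intro f
      rw [exp_one D tw PhiQ PhiQ_self S f, e2_add, e2_add, four, mul_sum, mul_sum]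
      refine sum_congr rfl fun ce _ => ?_
      rw [sum_nl]
      ring
    simp only [h6]
    have hswap : ∑ f : S → Lab2 K, ∑ ce : Lab2 K → ZMod 2, Fh PhiQ ce *
        (e2 (∑ j : S, D.dg (cf m (f j)) j) * e2 (∑ j : S, ce (f j) * D.dg w j) *
          e2 (∑ j : S, ∑ l : S, Phi1 PhiQ (f j) (f l) * D.s j l)) =
      ∑ ce : Lab2 K → ZMod 2, ∑ f : S → Lab2 K, Fh PhiQ ce *
        (e2 (∑ j : S, D.dg (cf m (f j)) j) * e2 (∑ j : S, ce (f j) * D.dg w j) *
          e2 (∑ j : S, ∑ l : S, Phi1 PhiQ (f j) (f l) * D.s j l)) := sum_comm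
    rw [hswap, mul_sum, mul_sum]
    refine sum_congr rfl fun ce _ => ?_
    rw [← mul_sum]
    have h7 : ∀ f : S → Lab2 K, ∏ j : S, (LN D h (ccG cf w 0 m ce)).g (f j) j =
        ((2 ^ K : ℂ)⁻¹) ^ S.card * ((∏ q ∈ S, h q) *
          (e2 (∑ j : S, D.dg (cf m (f j)) j) * e2 (∑ j : S, ce (f j) * D.dg w j))) := by
      intro f
      have h8 : ∀ j : S, (LN D h (ccG cf w 0 m ce)).g (f j) j = ((2 : ℂ) ^ K)⁻¹ * (h j *
          e2 (D.dg (cf m (f j)) j + ce (f j) * D.dg w j)) := by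
        intro j
        show h j * (((2 : ℂ) ^ K)⁻¹ * e2 (D.dg (ccG cf w 0 m ce (f j)) j)) = _
        rw [ccG, dg_add, dg_add, dg_smul, dg_zero, zero_add]
        ring
      rw [prod_congr rfl fun j _ => h8 j, prod_mul_distrib, prod_const, card_univ,
        Fintype.card_coe, prod_mul_distrib, ← e2_sum, sum_add_distrib, e2_add,
        prod_coe_sort S h]
    have h9 : ∀ f : S → Lab2 K, (∏ j : S, (LN D h (ccG cf w 0 m ce)).g (f j) j) *
        e2 (∑ j : S, ∑ l : S, (LN D h (ccG cf w 0 m ce)).Phi (f j) (f l) * D.s j l) =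
        ((2 ^ K : ℂ)⁻¹) ^ S.card * (∏ q ∈ S, h q) *
          (e2 (∑ j : S, D.dg (cf m (f j)) j) * e2 (∑ j : S, ce (f j) * D.dg w j) *
          e2 (∑ j : S, ∑ l : S, Phi1 PhiQ (f j) (f l) * D.s j l)) := by
      intro f
      rw [h7 f]
      show ((2 ^ K : ℂ)⁻¹) ^ S.card * ((∏ q ∈ S, h q) *
          (e2 (∑ j : S, D.dg (cf m (f j)) j) * e2 (∑ j : S, ce (f j) * D.dg w j))) *
          e2 (∑ j : S, ∑ l : S, Phi1 PhiQ (f j) (f l) * D.s j l) = _
      ring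
    rw [sum_congr rfl fun f _ => h9 f, ← mul_sum]
    ring
  rw [sum_mul, sum_congr rfl h1, sum_comm]
  refine sum_congr rfl fun m _ => ?_
  rw [sum_comm]
  exact sum_congr rfl fun ce _ => (mul_sum _ _ _).symm

open Classical in
/-- **The limit of the weighted mean values.** -/
theorem genMo_lim {D : Dat2 ι κ} {w : κ → ZMod 2} (hD : OKt D w) (rf : M → ZMod 2)
    (cf : M → Lab2 K → κ → ZMod 2) (Kf : Finset ι → ℂ) (W : ℂ)
    (hK : ∀ S : Finset ι, Kf S * (2 ^ K) ^ S.card * W = ∑ m : M, e2 (rf m) * ∑ f : S → Lab2 K,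
      e2 (∑ j : S, D.dg (cf m (f j)) j + ∑ j : S, ∑ l : S, PhiQ (f j) (f l) * D.s j l))
    {h : ι → ℂ} {tr : (κ → ZMod 2) → Prop} (hw : D.Wt ∅ h tr)
    (hk : 1 ≤ K) (ε : ℝ) (hε : 0 < ε) : ∃ X₀ : ℕ, ∀ X : ℕ, X₀ ≤ X →
    ‖(∑ S ∈ Sx ι X, (∏ q ∈ S, h q) * Kf S) * W -
      (∑ c0 ∈ univ.filter tr, TNG rf cf w c0) * ((Sx ι X).card : ℂ)‖ ≤ ε * X := by
  have hN : (0 : ℝ) < Fintype.card (M × (Lab2 K → ZMod 2)) + 1 := by positivity
  set ε' : ℝ := ε / (Fintype.card (M × (Lab2 K → ZMod 2)) + 1) with hε'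
  have hε0 : 0 < ε' := by positivity
  choose X0 h0 using fun p : M × (Lab2 K → ZMod 2) =>
    engineG D hD.an (LN D h (ccG cf w 0 p.1 p.2)) (LN_OK hD hk hw (ccG cf w 0 p.1 p.2)) ε' hε0
  refine ⟨∑ p, X0 p, fun X hX => ?_⟩
  have hXt : ∀ p, X0 p ≤ X := fun p =>
    (single_le_sum (fun _ _ => Nat.zero_le _) (mem_univ p)).trans hX
  have hT : ∑ c0 ∈ univ.filter tr, TNG rf cf w c0 =
      ∑ m : M, ∑ ce : Lab2 K → ZMod 2, e2 (rf m) * Fh PhiQ ce *
        ∑ U ∈ UsN K, mN tr (ccG cf w 0 m ce) U := by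
    unfold TNG
    rw [sum_comm]
    refine sum_congr rfl fun m _ => ?_
    rw [sum_comm]
    refine sum_congr rfl fun ce _ => ?_
    rw [← mul_sum, sum_comm]
    congr 1
    exact sum_congr rfl fun U hU => sum_iNG tr cf w m ce hU
  rw [genMo_eq D hD.tw rf cf Kf W hK h X, hT, ← Fintype.sum_prod_type',
    ← Fintype.sum_prod_type' (f := fun (m : M) (ce : Lab2 K → ZMod 2) =>
      e2 (rf m) * Fh PhiQ ce * ∑ U ∈ UsN K, mN tr (ccG cf w 0 m ce) U), sum_mul,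
    ← sum_sub_distrib]
  calc _ ≤ ∑ p : M × (Lab2 K → ZMod 2), ε' * X := by
        refine (norm_sum_le _ _).trans (sum_le_sum fun p _ => ?_)
        have h2 := h0 p X (hXt p)
        rw [mul_assoc (e2 (rf p.1) * Fh PhiQ p.2), ← mul_sub, norm_mul, norm_mul, norm_e2,
          one_mul]
        have h3 := norm_Fh_le (PhiQ (k := K)) p.2
        calc _ ≤ 1 * _ := mul_le_mul_of_nonneg_right h3 (norm_nonneg _)
          _ ≤ _ := by
            rw [one_mul]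
            exact h2
    _ ≤ ε * X := by
        rw [sum_const, card_univ, nsmul_eq_mul, ← mul_assoc]
        refine mul_le_mul_of_nonneg_right ?_ (Nat.cast_nonneg _)
        rw [hε', mul_div_assoc', div_le_iff₀ hN]
        nlinarith

end

end Pool.Agent.Lib.MP_1a91b9_ntV.DJ
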