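import Pool.Agent.Lib.MP_1a91b9_ntV.DJ.OffT
import Pool.Agent.Lib.MP_1a91b9_ntV.DI.Pair7

/-!
# MP_1a91b9_nt (joint density for twisted systems), part D: the joint density of the good sets

`joint7`: for finitely many labels `(d0, d1, d2, T)`, `T ⊆ B`, which are distinct, the sets `S` of
primes outside `B` in a class for which `S ∪ T` is good for all the labels have lower density at least
`cinfV ^ N`.
-/

set_option autoImplicit false
set_option linter.unusedSectionVars false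

namespace Pool.Agent.Lib.MP_1a91b9_ntV.DJ

open Finset Pool.Agent.Lib.MP_1a91b9_ntH Pool.Agent.Lib.MP_1a91b9_ntQ
  Pool.Agent.Lib.MP_1a91b9_ntQ.Da Pool.Agent.Lib.MP_1a91b9_ntV Pool.Agent.Lib.MP_1a91b9_ntM
  Pool.Agent.Lib.MP_1a91b9_ntV.DS

open Pool.Agent.Lib.MP_1a91b9_ntV.Pn (P7 tcn_P7 trn_P7 good_P7_0 good_P7_1 pencil_P7)

open Filter Topology

noncomputable section

/-! ### The infinite product -/

theorem tendsto_cinfV : Tendsto (fun n => ∏ i ∈ range n, (1 - (1 / 2 : ℝ) ^ (i + 1))) atTop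
    (𝓝 cinfV) := by
  have hs : Summable fun i : ℕ => (1 / 2 : ℝ) ^ (i + 1) := by
    have h1 : Summable fun i : ℕ => (1 / 2 : ℝ) * (1 / 2) ^ i :=
      (summable_geometric_of_lt_one (by norm_num) (by norm_num)).mul_left _
    exact h1.congr fun i => (pow_succ' _ _).symm
  have hsB : Multipliable fun i : ℕ => (1 - (1 / 2 : ℝ) ^ (i + 1)) := by
    have := Real.multipliable_one_add_of_summable (f := fun i : ℕ => -(1 / 2 : ℝ) ^ (i + 1)) hs.neg
    exact this.congr fun i => (sub_eq_add_neg _ _).symm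
  exact hsB.hasProd.tendsto_prod_nat

theorem fac_nn (i : ℕ) : 0 ≤ 1 - (1 / 2 : ℝ) ^ (i + 1) := by
  have : (1 / 2 : ℝ) ^ (i + 1) ≤ 1 := pow_le_one₀ (by norm_num) (by norm_num)
  linarith

theorem fac_le (i : ℕ) : 1 - (1 / 2 : ℝ) ^ (i + 1) ≤ 1 := by
  have : (0 : ℝ) < (1 / 2 : ℝ) ^ (i + 1) := by positivity
  linarith

theorem cinfV_nn : 0 ≤ cinfV :=
  ge_of_tendsto' tendsto_cinfV fun _ => prod_nonneg fun i _ => fac_nn i

theorem cinfV_half : cinfV ≤ 1 / 2 := by
  refine le_of_tendsto ((tendsto_add_atTop_iff_nat 1).2 tendsto_cinfV)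
    (Eventually.of_forall fun n => ?_)
  rw [prod_range_succ']
  have h1 : ∏ k ∈ range n, (1 - (1 / 2 : ℝ) ^ (k + 1 + 1)) ≤ 1 :=
    prod_le_one (fun i _ => fac_nn (i + 1)) fun i _ => fac_le (i + 1)
  have h2 : (1 - (1 / 2 : ℝ) ^ (0 + 1)) = 1 / 2 := by norm_num
  rw [h2]
  linarith

/-! ### The blocks of the labels -/

variable {ι : Type} [DecidableEq ι] {N : ℕ}

/-- The label without the sign. -/
def lab (d1 d2 : Fin N → ZMod 2) (T : Fin N → Finset ι) (a : Fin N) :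
    (ZMod 2 × ZMod 2) × Finset ι := ((d1 a, d2 a), T a)

/-- The blocks. -/
abbrev Bks (d1 d2 : Fin N → ZMod 2) (T : Fin N → Finset ι) : Type :=
  (univ.image (lab d1 d2 T) : Finset ((ZMod 2 × ZMod 2) × Finset ι))

/-- The labels in a block. -/
def mem (d1 d2 : Fin N → ZMod 2) (T : Fin N → Finset ι) (b : Bks d1 d2 T) : Finset (Fin N) :=
  univ.filter fun a => lab d1 d2 T a = b.1

theorem exists_rep (d1 d2 : Fin N → ZMod 2) (T : Fin N → Finset ι) (b : Bks d1 d2 T) :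
    ∃ a, lab d1 d2 T a = b.1 := by
  obtain ⟨a, _, h⟩ := mem_image.1 b.2
  exact ⟨a, h⟩

/-- A label in a block. -/
def rep (d1 d2 : Fin N → ZMod 2) (T : Fin N → Finset ι) (b : Bks d1 d2 T) : Fin N :=
  (exists_rep d1 d2 T b).choose

theorem rep_spec (d1 d2 : Fin N → ZMod 2) (T : Fin N → Finset ι) (b : Bks d1 d2 T) :
    lab d1 d2 T (rep d1 d2 T b) = b.1 := (exists_rep d1 d2 T b).choose_spec

theorem mem_mem {d1 d2 : Fin N → ZMod 2} {T : Fin N → Finset ι} {b : Bks d1 d2 T} {a : Fin N} :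
    a ∈ mem d1 d2 T b ↔ lab d1 d2 T a = b.1 := by
  rw [mem, mem_filter]
  exact and_iff_right (mem_univ _)

/-- A product over the labels. -/
theorem prod_blocks (d1 d2 : Fin N → ZMod 2) (T : Fin N → Finset ι) {M : Type} [CommMonoid M]
    (f : Fin N → M) : ∏ a, f a = ∏ b : Bks d1 d2 T, ∏ a ∈ mem d1 d2 T b, f a := by
  rw [← prod_fiberwise_of_maps_to (s := univ) (t := univ.image (lab d1 d2 T)) (g := lab d1 d2 T)
    (fun a _ => mem_image_of_mem _ (mem_univ a)) f, ← prod_coe_sort]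
  rfl

/-- A block consists of one or two labels. -/
theorem block_cases {d0 d1 d2 : Fin N → ZMod 2} {T : Fin N → Finset ι}
    (hinj : Function.Injective fun i => (d0 i, d1 i, d2 i, T i)) (b : Bks d1 d2 T) :
    mem d1 d2 T b = {rep d1 d2 T b} ∨ ∃ a, a ≠ rep d1 d2 T b ∧
      d0 a = d0 (rep d1 d2 T b) + 1 ∧ mem d1 d2 T b = {rep d1 d2 T b, a} := by
  obtain ⟨r, hr⟩ : ∃ r, r = rep d1 d2 T b := ⟨_, rfl⟩
  have hrb : lab d1 d2 T r = b.1 := by
    rw [hr]
    exact rep_spec d1 d2 T b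
  rw [← hr]
  have key : ∀ a a', lab d1 d2 T a = lab d1 d2 T a' → d0 a = d0 a' → a = a' := by
    intro a a' h h0
    unfold lab at h
    simp only [Prod.mk.injEq] at h
    apply hinj
    simp only [Prod.mk.injEq]
    exact ⟨h0, h.1.1, h.1.2, h.2⟩
  have z2 : ∀ x y : ZMod 2, x = y ∨ x = y + 1 := by decide
  by_cases hex : ∃ a, lab d1 d2 T a = b.1 ∧ d0 a = d0 r + 1
  · obtain ⟨a, ha, h0⟩ := hex
    right
    have hne : a ≠ r := by
      intro h
      rw [h] at h0
      revert h0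
      generalize d0 r = x
      revert x
      decide
    refine ⟨a, hne, h0, ?_⟩
    ext c
    rw [mem_mem, mem_insert, mem_singleton]
    constructor
    · intro hc
      rcases z2 (d0 c) (d0 r) with h | h
      · exact Or.inl (key c r (hc.trans hrb.symm) h)
      · exact Or.inr (key c a (hc.trans ha.symm) (h.trans h0.symm))
    · rintro (rfl | rfl)
      · exact hrb
      · exact ha
  · left
    ext c
    rw [mem_mem, mem_singleton]
    constructor
    · intro hc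
      rcases z2 (d0 c) (d0 r) with h | h
      · exact key c r (hc.trans hrb.symm) h
      · exact absurd ⟨c, hc, h⟩ hex
    · rintro rfl
      exact hrb

/-! ### The systems of a block -/

section Sys

variable (D : Dat2 ι (Fin 3)) {B : Finset ι} (γ' : Fin 3 ⊕ B → ZMod 2)

/-- The weight of the law of reciprocity for the primes outside `B`. -/
def w7B (B : Finset ι) : Fin 3 ⊕ B → ZMod 2 := cB B ∅ w7

/-- The system `i` of the pair `D`, `-D` for the primes outside `B`. -/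
def PB (T : Finset ι) (d0 d1 d2 : ZMod 2) (i : Fin 3) : BD (Fin 3 ⊕ B) (T ⊕ Fin 3) (T ⊕ Fin 3) :=
  BDo D w7 B T γ' (P7 (gT D T γ') d0 d1 d2 i)

variable {D}

theorem kap7_add (d0 d1 d2 e0 e1 e2 x y : ZMod 2) :
    kap7 d0 d1 d2 x + kap7 e0 e1 e2 y =
      ![x + y + (d0 + e0) + (d1 + e1) + (d2 + e2), d1 + e1, d2 + e2] := by
  funext i
  fin_cases i
  · show (x + d0 + d1 + d2) + (y + e0 + e1 + e2) = x + y + (d0 + e0) + (d1 + e1) + (d2 + e2)
    ring
  · rfl
  · rfl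

/-- The class vectors of different blocks are distinct modulo the weight. -/
theorem sep7 {T T' : Finset ι} (hT : T ⊆ B) (hT' : T' ⊆ B) {d0 d1 d2 e0 e1 e2 : ZMod 2}
    (i i' : Fin 3) (h : ¬ (d1 = e1 ∧ d2 = e2 ∧ T = T')) :
    (PB D γ' T d0 d1 d2 i).kap + (PB D γ' T' e0 e1 e2 i').kap ≠ 0 ∧
      (PB D γ' T d0 d1 d2 i).kap + (PB D γ' T' e0 e1 e2 i').kap ≠ w7B B := by
  obtain ⟨x, hx⟩ : ∃ x, x = gT D T γ' 0 := ⟨_, rfl⟩
  obtain ⟨y, hy⟩ : ∃ y, y = gT D T' γ' 0 := ⟨_, rfl⟩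
  have h1 : ∀ c : Fin 3 → ZMod 2, c 1 = 0 → c 2 = 0 →
      (PB D γ' T d0 d1 d2 i).kap + (PB D γ' T' e0 e1 e2 i').kap ≠ cB B ∅ c := by
    intro c hc1 hc2 heq
    apply h
    have e1' : d1 + e1 = 0 := by
      have h2 := congrFun heq (Sum.inl 1)
      have h3 : (PB D γ' T d0 d1 d2 i).kap (Sum.inl 1) + (PB D γ' T' e0 e1 e2 i').kap (Sum.inl 1) =
          d1 + e1 := rfl
      rw [Pi.add_apply, h3] at h2
      exact h2.trans hc1
    have e2' : d2 + e2 = 0 := by
      have h2 := congrFun heq (Sum.inl 2)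
      have h3 : (PB D γ' T d0 d1 d2 i).kap (Sum.inl 2) + (PB D γ' T' e0 e1 e2 i').kap (Sum.inl 2) =
          d2 + e2 := rfl
      rw [Pi.add_apply, h3] at h2
      exact h2.trans hc2
    have z2 : ∀ x y : ZMod 2, x + y = 0 → x = y := by decide
    refine ⟨z2 _ _ e1', z2 _ _ e2', ?_⟩
    have h5 : ∀ b : B, (b.1 ∈ T ↔ b.1 ∈ T') := by
      intro b
      have h2 := congrFun heq (Sum.inr b)
      have h3 : (PB D γ' T d0 d1 d2 i).kap (Sum.inr b) + (PB D γ' T' e0 e1 e2 i').kap (Sum.inr b) =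
          (if b.1 ∈ T then 1 else 0) + if b.1 ∈ T' then 1 else 0 := rfl
      rw [Pi.add_apply, h3, cB_emp] at h2
      by_cases hb : b.1 ∈ T
      · by_cases hb' : b.1 ∈ T'
        · exact iff_of_true hb hb'
        · rw [if_pos hb, if_neg hb', add_zero] at h2
          exact absurd h2 one_ne_zero
      · by_cases hb' : b.1 ∈ T'
        · rw [if_neg hb, if_pos hb', zero_add] at h2
          exact absurd h2 one_ne_zero
        · exact iff_of_false hb hb'
    ext q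
    constructor
    · intro hq
      exact (h5 ⟨q, hT hq⟩).1 hq
    · intro hq
      exact (h5 ⟨q, hT' hq⟩).2 hq
  refine ⟨?_, h1 w7 rfl rfl⟩
  have h6 := h1 0 rfl rfl
  have h7 : cB B ∅ (0 : Fin 3 → ZMod 2) = 0 := by
    funext j
    rcases j with j | b
    · rfl
    · exact cB_emp 0 b
  rwa [h7] at h6

variable (tw : Tw7 D)

include tw in
theorem tw_dg (p q : ι) (hpq : p ≠ q) : D.s p q + D.s q p = D.dg w7 p * D.dg w7 q := by
  have e : ∀ q, D.dg w7 q = D.a q 0 := by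
    intro q
    rw [w7, dg_vec3]
    ring
  rw [tw p q hpq, e, e]

include tw in
theorem bal7 {T : Finset ι} (hT : T ⊆ B) (d0 d1 d2 : ZMod 2) (i : Fin 3) :
    Bal (PB D γ' T d0 d1 d2 i) (w7B B) γ' := by
  refine Bal_off D (tw_dg tw) hT γ' _ ?_
  unfold Bal
  rw [tcn_P7, trn_P7]

theorem tv7 {T : Finset ι} (hT : T ⊆ B) (d0 d1 d2 : ZMod 2) (i : Fin 3) :
    tv (PB D γ' T d0 d1 d2 i) γ' = 2 := (tv_off D hT γ' _).trans (tcn_P7 _ _ _ _ _)

theorem clN_UT {S : Finset (Off B)} {T : Finset ι} (hT : T ⊆ B)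
    (hγ : clN (D.off B) S = γ') (j : Fin 3) : ∑ q ∈ up S ∪ T, D.a q j = gT D T γ' j := by
  have hd : Disjoint (up S) T := disjoint_of_subset_right hT (disj_up S)
  rw [sum_union hd, gT, Pi.add_apply, Finset.sum_apply]
  congr 1
  rw [← hγ]
  exact sum_up S fun q => D.a q j

open Classical in
/-- The indicator of a good set. -/
def gi (D : Dat2 ι (Fin 3)) {B : Finset ι} (T : Finset ι) (d0 d1 d2 : ZMod 2)
    (S : Finset (Off B)) : ℝ := if Good7 D (up S ∪ T) d0 d1 d2 then 1 else 0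

include tw in
/-- The indicator of a good set as the indicator of a minimal kernel. -/
theorem gi_one {S : Finset (Off B)} (hS : S ≠ ∅) {T : Finset ι} (hT : T ⊆ B)
    (hγ : clN (D.off B) S = γ') (d0 d1 d2 : ZMod 2) :
    gi D T d0 d1 d2 S = gd (D.off B) (PB D γ' T d0 d1 d2 0) γ' S := by
  have hne : (up S ∪ T).Nonempty := by
    obtain ⟨q, hq⟩ := nonempty_iff_ne_empty.2 hS
    exact ⟨q.1, mem_union_left _ (mem_up.2 ⟨q.2, hq⟩)⟩
  have h1 := good_P7_0 (γ := gT D T γ') d0 d1 d2 tw (clN_UT γ' hT hγ) hne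
  have h2 : kM (D.off B) (PB D γ' T d0 d1 d2 0) S =
      kM D (P7 (gT D T γ') d0 d1 d2 0) (up S ∪ T) := kM_off D (tw_dg tw) hT _ hγ
  classical
  unfold gi gd
  rw [tv7 γ' hT, h2]
  exact if_congr h1 rfl rfl

include tw in
/-- The product of the indicators of `D` and `-D`. -/
theorem gi_two {S : Finset (Off B)} (hS : S ≠ ∅) {T : Finset ι} (hT : T ⊆ B)
    (hγ : clN (D.off B) S = γ') (d0 d1 d2 : ZMod 2) :
    gi D T d0 d1 d2 S * gi D T (d0 + 1) d1 d2 S =
      1 / 2 * gd (D.off B) (PB D γ' T d0 d1 d2 0) γ' S +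
      1 / 2 * gd (D.off B) (PB D γ' T d0 d1 d2 1) γ' S -
      1 / 2 * gd (D.off B) (PB D γ' T d0 d1 d2 2) γ' S := by
  have hne : (up S ∪ T).Nonempty := by
    obtain ⟨q, hq⟩ := nonempty_iff_ne_empty.2 hS
    exact ⟨q.1, mem_union_left _ (mem_up.2 ⟨q.2, hq⟩)⟩
  have h0 := good_P7_0 (γ := gT D T γ') d0 d1 d2 tw (clN_UT γ' hT hγ) hne
  have h1 := good_P7_1 (γ := gT D T γ') d0 d1 d2 tw (clN_UT γ' hT hγ) hne
  have h3 := pencil_P7 (γ := gT D T γ') d0 d1 d2 tw (clN_UT γ' hT hγ) hne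
  have h2 : ∀ i, kM (D.off B) (PB D γ' T d0 d1 d2 i) S =
      kM D (P7 (gT D T γ') d0 d1 d2 i) (up S ∪ T) := fun i =>
    kM_off D (tw_dg tw) hT _ hγ
  unfold gi gd
  rw [tv7 γ' hT, tv7 γ' hT, tv7 γ' hT, h2, h2, h2]
  simp only [h0, h1, h3]
  by_cases a : kM D (P7 (gT D T γ') d0 d1 d2 0) (up S ∪ T) = 2
  · by_cases b : kM D (P7 (gT D T γ') d0 d1 d2 1) (up S ∪ T) = 2
    · rw [if_pos a, if_pos b, if_neg (not_not.2 (iff_of_true a b))]
      norm_num
    · rw [if_pos a, if_neg b, if_pos fun h => b (h.1 a)]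
      norm_num
  · by_cases b : kM D (P7 (gT D T γ') d0 d1 d2 1) (up S ∪ T) = 2
    · rw [if_neg a, if_pos b, if_pos fun h => a (h.2 b)]
      norm_num
    · rw [if_neg a, if_neg b, if_neg (not_not.2 (iff_of_false a b))]
      norm_num

end Sys

/-! ### The joint density -/

open Classical in
/-- The coefficients of a block. -/
def co (d1 d2 : Fin N → ZMod 2) (T : Fin N → Finset ι) (b : Bks d1 d2 T) (i : Fin 3) : ℝ :=
  if mem d1 d2 T b = {rep d1 d2 T b} then ![1, 0, 0] i else ![1 / 2, 1 / 2, -(1 / 2)] i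

theorem co_ge {d0 d1 d2 : Fin N → ZMod 2} {T : Fin N → Finset ι}
    (hinj : Function.Injective fun i => (d0 i, d1 i, d2 i, T i)) (b : Bks d1 d2 T) :
    ∏ _a ∈ mem d1 d2 T b, cinfV ≤ (∑ i, co d1 d2 T b i) * cinfV := by
  rw [prod_const, Fin.sum_univ_three]
  rcases block_cases hinj b with h | ⟨a, ha, _, h⟩
  · unfold co
    rw [if_pos h, if_pos h, if_pos h, h, card_singleton, pow_one]
    show cinfV ≤ (1 + 0 + 0) * cinfV
    linarith
  · have hn : ¬ mem d1 d2 T b = {rep d1 d2 T b} := by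
      intro h'
      have h2 : a ∈ ({rep d1 d2 T b} : Finset (Fin N)) := by
        rw [← h', h]
        exact mem_insert_of_mem (mem_singleton_self a)
      exact ha (mem_singleton.1 h2)
    unfold co
    rw [if_neg hn, if_neg hn, if_neg hn, h, card_pair ha.symm]
    show cinfV ^ 2 ≤ (1 / 2 + 1 / 2 + -(1 / 2)) * cinfV
    have h1 := cinfV_nn
    have h2 := cinfV_half
    nlinarith

variable [PS ι] {G : Type} [AddCommGroup G] [Fintype G]

/-- **The joint density of the good sets.** -/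
theorem wv7 {D : Dat2 ι (Fin 3)} (tw : Tw7 D) {B : Finset ι} (hD : OKt (D.off B) (w7B B))
    (C : Cl2 (D.off B) G) (h3 : C.H3) {d0 d1 d2 : Fin N → ZMod 2} {T : Fin N → Finset ι}
    (hT : ∀ i, T i ⊆ B) (hinj : Function.Injective fun i => (d0 i, d1 i, d2 i, T i)) (g : G) :
    WV (SG C g) (fun S => ∏ a, gi D (T a) (d0 a) (d1 a) (d2 a) S)
      (∏ b : Bks d1 d2 T, ((∑ i, co d1 d2 T b i) * cinfV)) := by
  classical
  obtain ⟨γ', hγ'⟩ : ∃ γ' : Fin 3 ⊕ B → ZMod 2, γ' = fun j => C.A j g := ⟨_, rfl⟩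
  have hw : w7B B ≠ 0 := fun h => one_ne_zero (congrFun h (Sum.inl 0))
  have h1 := dens_lin (B := Bks d1 d2 T) (I := fun _ => Fin 3) hD hw C h3
    (fun b i => PB D γ' (T (rep d1 d2 T b)) (d0 (rep d1 d2 T b)) (d1 (rep d1 d2 T b))
      (d2 (rep d1 d2 T b)) i)
    (by
      intro b b' hbb i i'
      refine sep7 γ' (hT _) (hT _) i i' ?_
      rintro ⟨h1, h2, h3⟩
      apply hbb
      apply Subtype.ext
      rw [← rep_spec d1 d2 T b, ← rep_spec d1 d2 T b']
      unfold lab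
      rw [h1, h2, h3])
    g (fun b i => by
      rw [← hγ']
      exact bal7 γ' tw (hT _) _ _ _ i)
    (co d1 d2 T) (fun b S => ∏ a ∈ mem d1 d2 T b, gi D (T a) (d0 a) (d1 a) (d2 a) S)
    (by
      intro X S hS hne b
      have hcl : clN (D.off B) S = γ' := by
        rw [hγ']
        exact cls_SG C hS
      rw [← hγ', Fin.sum_univ_three]
      have hlab : ∀ a, lab d1 d2 T a = lab d1 d2 T (rep d1 d2 T b) →
          d1 a = d1 (rep d1 d2 T b) ∧ d2 a = d2 (rep d1 d2 T b) ∧ T a = T (rep d1 d2 T b) := by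
        intro a h
        unfold lab at h
        simp only [Prod.mk.injEq] at h
        exact ⟨h.1.1, h.1.2, h.2⟩
      rcases block_cases hinj b with h | ⟨a, ha, h0, h⟩
      · unfold co
        rw [if_pos h, if_pos h, if_pos h, h, prod_singleton,
          gi_one γ' tw hne (hT _) hcl]
        show _ = 1 * _ + 0 * _ + 0 * _
        ring
      · have hn : ¬ mem d1 d2 T b = {rep d1 d2 T b} := by
          intro h'
          have h2 : a ∈ ({rep d1 d2 T b} : Finset (Fin N)) := by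
            rw [← h', h]
            exact mem_insert_of_mem (mem_singleton_self a)
          exact ha (mem_singleton.1 h2)
        have hab : lab d1 d2 T a = lab d1 d2 T (rep d1 d2 T b) := by
          rw [rep_spec, ← mem_mem, h]
          exact mem_insert_of_mem (mem_singleton_self a)
        obtain ⟨e1, e2, e3⟩ := hlab a hab
        unfold co
        rw [if_neg hn, if_neg hn, if_neg hn, h, prod_pair ha.symm, e1, e2, e3, h0,
          gi_two γ' tw hne (hT _) hcl]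
        show _ = 1 / 2 * _ + 1 / 2 * _ + -(1 / 2) * _
        ring)
  refine h1.congr (fun S => ?_) rfl
  exact prod_blocks d1 d2 T _

/-- **The lower density.** -/
theorem low7J {D : Dat2 ι (Fin 3)} (tw : Tw7 D) {B : Finset ι} (hD : OKt (D.off B) (w7B B))
    (C : Cl2 (D.off B) G) (h3 : C.H3) {d0 d1 d2 : Fin N → ZMod 2} {T : Fin N → Finset ι}
    (hT : ∀ i, T i ⊆ B) (hinj : Function.Injective fun i => (d0 i, d1 i, d2 i, T i)) (g : G)
    {κ₀ : ℝ} (hκ : κ₀ < cinfV ^ N) (ε : ℝ) (hε : 0 < ε) : ∃ X₀ : ℕ, ∀ X : ℕ, X₀ ≤ X →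
      κ₀ * (SG C g X).card - ε * X ≤ ∑ S ∈ SG C g X, ∏ a, gi D (T a) (d0 a) (d1 a) (d2 a) S := by
  refine (wv7 tw hD C h3 hT hinj g).lower (lt_of_lt_of_le hκ ?_) ε hε
  have h1 : cinfV ^ N = ∏ b : Bks d1 d2 T, ∏ _a ∈ mem d1 d2 T b, cinfV := by
    rw [← prod_blocks d1 d2 T fun _ => cinfV, prod_const, card_univ, Fintype.card_fin]
  rw [h1]
  exact prod_le_prod (fun b _ => prod_nonneg fun _ _ => cinfV_nn) fun b _ => co_ge hinj b

/-- The number of the sets with the property. -/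
theorem joint7 {D : Dat2 ι (Fin 3)} (tw : Tw7 D) {B : Finset ι} (hD : OKt (D.off B) (w7B B))
    (C : Cl2 (D.off B) G) (h3 : C.H3) (cl : ι → G) (hcl : ∀ q : Off B, C.cl q = cl q.1)
    {d0 d1 d2 : Fin N → ZMod 2} {T : Fin N → Finset ι}
    (hT : ∀ i, T i ⊆ B) (hinj : Function.Injective fun i => (d0 i, d1 i, d2 i, T i)) (g : G)
    {κ₀ : ℝ} (hκ : κ₀ < cinfV ^ N)
    [i1 : DecidablePred fun S : Finset ι => Disjoint S B ∧ ∑ q ∈ S, cl q = g]
    [i2 : DecidablePred fun S : Finset ι => Disjoint S B ∧ ∑ q ∈ S, cl q = g ∧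
      ∀ i, Good7 D (S ∪ T i) (d0 i) (d1 i) (d2 i)] (ε : ℝ) (hε : 0 < ε) :
    ∃ X₀ : ℕ, ∀ X : ℕ, X₀ ≤ X →
      κ₀ * (((Sx ι X).filter fun S => Disjoint S B ∧ ∑ q ∈ S, cl q = g).card : ℝ) - ε * X ≤
        (((Sx ι X).filter fun S => Disjoint S B ∧ ∑ q ∈ S, cl q = g ∧
          ∀ i, Good7 D (S ∪ T i) (d0 i) (d1 i) (d2 i)).card : ℝ) := by
  classical
  obtain ⟨X₀, h0⟩ := low7J tw hD C h3 hT hinj g hκ ε hε
  refine ⟨X₀, fun X hX => ?_⟩
  have h1 := h0 X hX
  have hsum : ∀ S : Finset (Off B), ∑ q ∈ S, C.cl q = ∑ q ∈ up S, cl q := by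
    intro S
    rw [sum_up]
    exact sum_congr rfl fun q _ => hcl q
  have e1 : (((Sx ι X).filter fun S => Disjoint S B ∧ ∑ q ∈ S, cl q = g).card : ℝ) =
      (SG C g X).card := by
    have h2 := sum_Sx_off (ι := ι) B X fun S => if ∑ q ∈ S, cl q = g then (1 : ℝ) else 0
    have h3 : ((SG C g X).card : ℝ) =
        ∑ S ∈ Sx (Off B) X, if ∑ q ∈ up S, cl q = g then (1 : ℝ) else 0 := by
      rw [← sum_filter, sum_const, nsmul_eq_mul, mul_one]
      congr 2
      ext S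
      rw [mem_SG, mem_filter, hsum]
    rw [h3, h2, ← sum_filter, filter_filter, sum_const, nsmul_eq_mul, mul_one]
    refine congrArg (fun n : ℕ => (n : ℝ)) (congrArg Finset.card ?_)
    ext S
    constructor
    · intro h
      exact (@mem_filter _ _ (_) _ _).2 ((@mem_filter _ _ (_) _ _).1 h)
    · intro h
      exact (@mem_filter _ _ (_) _ _).2 ((@mem_filter _ _ (_) _ _).1 h)
  have e2 : (((Sx ι X).filter fun S => Disjoint S B ∧ ∑ q ∈ S, cl q = g ∧
      ∀ i, Good7 D (S ∪ T i) (d0 i) (d1 i) (d2 i)).card : ℝ) =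
      ∑ S ∈ SG C g X, ∏ a, gi D (T a) (d0 a) (d1 a) (d2 a) S := by
    have h2 := sum_Sx_off (ι := ι) B X fun S => if ∑ q ∈ S, cl q = g ∧
      (∀ i, Good7 D (S ∪ T i) (d0 i) (d1 i) (d2 i)) then (1 : ℝ) else 0
    have h3 : ∑ S ∈ SG C g X, ∏ a, gi D (T a) (d0 a) (d1 a) (d2 a) S =
        ∑ S ∈ Sx (Off B) X, if ∑ q ∈ up S, cl q = g ∧
          (∀ i, Good7 D (up S ∪ T i) (d0 i) (d1 i) (d2 i)) then (1 : ℝ) else 0 := by
      have h4 : ∀ S : Finset (Off B), ∏ a, gi D (T a) (d0 a) (d1 a) (d2 a) S =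
          if (∀ i, Good7 D (up S ∪ T i) (d0 i) (d1 i) (d2 i)) then (1 : ℝ) else 0 := by
        intro S
        unfold gi
        rw [prod_ite_zero]
        simp only [mem_univ, true_implies, prod_const_one]
      simp only [h4]
      have h5 : SG C g X = (Sx (Off B) X).filter fun S => ∑ q ∈ up S, cl q = g := by
        ext S
        rw [mem_SG, mem_filter, hsum]
      rw [h5, sum_filter]
      refine sum_congr rfl fun S _ => ?_
      by_cases a : ∑ q ∈ up S, cl q = g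
      · by_cases b : ∀ i, Good7 D (up S ∪ T i) (d0 i) (d1 i) (d2 i)
        · rw [if_pos a, if_pos b, if_pos ⟨a, b⟩]
        · rw [if_pos a, if_neg b, if_neg fun h => b h.2]
      · rw [if_neg a, if_neg fun h => a h.1]
    rw [h3, h2, ← sum_filter, filter_filter, sum_const, nsmul_eq_mul, mul_one]
    refine congrArg (fun n : ℕ => (n : ℝ)) (congrArg Finset.card ?_)
    ext S
    constructor
    · intro h
      exact (@mem_filter _ _ (_) _ _).2 ((@mem_filter _ _ (_) _ _).1 h)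
    · intro h
      exact (@mem_filter _ _ (_) _ _).2 ((@mem_filter _ _ (_) _ _).1 h)
  rw [e1, e2]
  exact h1

end

end Pool.Agent.Lib.MP_1a91b9_ntV.DJ
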