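import Pool.Agent.Lib.MP_1a91b9_ntV.DJ.OffV

/-!
# MP_1a91b9_nt (joint density for twisted systems), part D: the trivial vectors with fixed primes

The trivial vectors of `BDo D w B T γ' P` and of `P` are the same.
-/

set_option autoImplicit false
set_option linter.unusedSectionVars false

namespace Pool.Agent.Lib.MP_1a91b9_ntV.DJ

open Finset Pool.Agent.Lib.MP_1a91b9_ntH Pool.Agent.Lib.MP_1a91b9_ntQ
  Pool.Agent.Lib.MP_1a91b9_ntQ.Da Pool.Agent.Lib.MP_1a91b9_ntV Pool.Agent.Lib.MP_1a91b9_ntM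
  Pool.Agent.Lib.MP_1a91b9_ntV.DS

noncomputable section

variable {ι : Type} [DecidableEq ι] {κ : Type} [Fintype κ] [DecidableEq κ] {E : Type} [Fintype E]
  [DecidableEq E] {F : Type} [Fintype F] [DecidableEq F]

/-- The class with the primes of `T`. -/
def gT (D : Dat2 ι κ) {B : Finset ι} (T : Finset ι) (γ' : κ ⊕ B → ZMod 2) : κ → ZMod 2 :=
  gl γ' + ∑ t ∈ T, D.a t

theorem dot_gT (D : Dat2 ι κ) {B : Finset ι} (T : Finset ι) (γ' : κ ⊕ B → ZMod 2)
    (c : κ → ZMod 2) : c ⬝ᵥ gT D T γ' = c ⬝ᵥ gl γ' + ∑ t ∈ T, D.dg c t := by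
  rw [gT, dotProduct_add]
  congr 1
  unfold dotProduct Dat2.dg
  rw [sum_comm]
  refine sum_congr rfl fun j _ => ?_
  rw [← mul_sum, Finset.sum_apply]

/-- The vector with copies of the first entry. -/
def cpy {ι : Type} (T : Finset ι) {E : Type} (x : Option E → ZMod 2) :
    Option (T ⊕ E) → ZMod 2 :=
  fun a => a.elim (x none) (Sum.elim (fun _ => x none) fun e => x (some e))

theorem sum_cpy {T : Finset ι} (g : Option (T ⊕ E) → ZMod 2) (x : Option E → ZMod 2) :
    ∑ a, g a * cpy T x a = (g none + ∑ t : T, g (some (Sum.inl t))) * x none +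
      ∑ e, g (some (Sum.inr e)) * x (some e) := by
  rw [Fintype.sum_option, Fintype.sum_sum_type]
  show g none * x none + (∑ t : T, g (some (Sum.inl t)) * x none + _) = _
  rw [← sum_mul]
  show _ + (_ + ∑ e, g (some (Sum.inr e)) * x (some e)) = _
  ring

theorem eq_cpy {T : Finset ι} {x' : Option (T ⊕ E) → ZMod 2}
    (h : ∀ t : T, x' none + x' (some (Sum.inl t)) = 0) :
    cpy T (fun a : Option E => x' (a.map Sum.inr)) = x' := by
  funext a
  rcases a with _ | t | e
  · rfl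
  · show x' none = _
    linear_combination h t - x' (some (Sum.inl t)) * two0
  · rfl

theorem cpy_inj {T : Finset ι} {x y : Option E → ZMod 2} (h : cpy T x = cpy T y) : x = y := by
  funext a
  rcases a with _ | e
  · exact congrFun h none
  · exact congrFun h (some (Sum.inr e))

/-- Two sets of vectors, one of them with copies of the first entry. -/
theorem card_cpy {T : Finset ι} (p : (Option E → ZMod 2) → Prop)
    (p' : (Option (T ⊕ E) → ZMod 2) → Prop) [DecidablePred p] [DecidablePred p']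
    (h1 : ∀ x', p' x' → ∀ t : T, x' none + x' (some (Sum.inl t)) = 0)
    (h2 : ∀ x, p' (cpy T x) ↔ p x) :
    (univ.filter p').card = (univ.filter p).card := by
  symm
  refine card_bij (fun x _ => cpy T x) (fun x hx => ?_) (fun x _ y _ h => cpy_inj h)
    fun x' hx' => ?_
  · rw [mem_filter] at hx ⊢
    exact ⟨mem_univ _, (h2 x).2 hx.2⟩
  · rw [mem_filter] at hx'
    have h3 := eq_cpy (h1 x' hx'.2)
    refine ⟨fun a => x' (a.map Sum.inr), ?_, h3⟩
    rw [mem_filter]
    refine ⟨mem_univ _, (h2 _).1 ?_⟩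
    rw [h3]
    exact hx'.2

section Triv

variable (D : Dat2 ι κ) {w : κ → ZMod 2}
  (tw : ∀ p q, p ≠ q → D.s p q + D.s q p = D.dg w p * D.dg w q) {B T : Finset ι} (hT : T ⊆ B)
  (γ' : κ ⊕ B → ZMod 2) (P : BD κ E F)

theorem cB_inl (T : Finset ι) (c : κ → ZMod 2) (j : κ) : cB B T c (Sum.inl j) = c j := rfl

theorem cB_inr (T : Finset ι) (c : κ → ZMod 2) (b : B) :
    cB B T c (Sum.inr b) = if b.1 ∈ T then 1 else 0 := rfl

theorem cB_emp (c : κ → ZMod 2) (b : B) : cB B ∅ c (Sum.inr b) = 0 := by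
  rw [cB_inr, if_neg (notMem_empty _)]

theorem sum_one (b : B) (f : T → ZMod 2) (x : ZMod 2) (h : ∀ t : T, b.1 = t.1 → f t = x) :
    ∑ t : T, (if b.1 ∈ ({t.1} : Finset ι) then 1 else 0) * f t = if b.1 ∈ T then x else 0 := by
  simp only [ite_mul, one_mul, zero_mul, mem_singleton]
  split_ifs with hb
  · rw [sum_eq_single (⟨b.1, hb⟩ : T)]
    · rw [if_pos rfl]
      exact h _ rfl
    · intro t _ ht
      exact if_neg fun h => ht (Subtype.ext h.symm)
    · intro h
      exact absurd (mem_univ _) h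
  · refine sum_eq_zero fun t _ => ?_
    rw [if_neg]
    intro h
    exact hb (by rw [h]; exact t.2)

include hT in
theorem Lc_B {x' : Option (T ⊕ E) → ZMod 2}
    (h : ∀ j', ∑ a, Lc (BDo D w B T γ' P) j' a * x' a = 0) (t : T) :
    x' none + x' (some (Sum.inl t)) = 0 := by
  have h1 := h (Sum.inr ⟨t.1, hT t.2⟩)
  rw [Fintype.sum_option, Fintype.sum_sum_type] at h1
  have e1 : Lc (BDo D w B T γ' P) (Sum.inr ⟨t.1, hT t.2⟩) none = 1 := if_pos t.2
  have e2 : ∀ t' : T, Lc (BDo D w B T γ' P) (Sum.inr ⟨t.1, hT t.2⟩) (some (Sum.inl t')) =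
      if t.1 ∈ ({t'.1} : Finset ι) then 1 else 0 := fun _ => rfl
  have e3 : ∀ e : E, Lc (BDo D w B T γ' P) (Sum.inr ⟨t.1, hT t.2⟩) (some (Sum.inr e)) =
      0 := fun e => cB_emp (P.be e) (⟨t.1, hT t.2⟩ : B)
  simp only [e1, e2, e3, zero_mul, sum_const_zero, add_zero, one_mul] at h1
  rw [sum_one ⟨t.1, hT t.2⟩ _ (x' (some (Sum.inl t))) (fun t' ht' => by
    have : t' = t := Subtype.ext ht'.symm
    rw [this]), if_pos t.2] at h1
  exact h1

include hT in
theorem Lr_B {y' : Option (T ⊕ F) → ZMod 2}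
    (h : ∀ j', ∑ b, Lr (BDo D w B T γ' P) (cB B ∅ w) γ' j' b * y' b = 0) (t : T) :
    y' none + y' (some (Sum.inl t)) = 0 := by
  have h1 := h (Sum.inr ⟨t.1, hT t.2⟩)
  rw [Fintype.sum_option, Fintype.sum_sum_type] at h1
  have e1 : Lr (BDo D w B T γ' P) (cB B ∅ w) γ' (Sum.inr ⟨t.1, hT t.2⟩) none = 1 := by
    have h3 : cB B T P.kap (Sum.inr ⟨t.1, hT t.2⟩) = 1 := if_pos t.2
    have h4 : cB B ∅ w (Sum.inr ⟨t.1, hT t.2⟩) = 0 := cB_emp w _
    show cB B T P.kap (Sum.inr ⟨t.1, hT t.2⟩) + (1 + cB B ∅ w ⬝ᵥ γ') *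
      cB B ∅ w (Sum.inr ⟨t.1, hT t.2⟩) = 1
    rw [h3, h4, mul_zero, add_zero]
  have e2 : ∀ t' : T, Lr (BDo D w B T γ' P) (cB B ∅ w) γ' (Sum.inr ⟨t.1, hT t.2⟩)
      (some (Sum.inl t')) = if t.1 ∈ ({t'.1} : Finset ι) then 1 else 0 := fun _ => rfl
  have e3 : ∀ f : F, Lr (BDo D w B T γ' P) (cB B ∅ w) γ' (Sum.inr ⟨t.1, hT t.2⟩)
      (some (Sum.inr f)) = 0 := fun f => cB_emp (P.bf f) (⟨t.1, hT t.2⟩ : B)
  simp only [e1, e2, e3, zero_mul, sum_const_zero, add_zero, one_mul] at h1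
  rw [sum_one ⟨t.1, hT t.2⟩ _ (y' (some (Sum.inl t))) (fun t' ht' => by
    have : t' = t := Subtype.ext ht'.symm
    rw [this]), if_pos t.2] at h1
  exact h1

include hT in
theorem Lc_cpy (x : Option E → ZMod 2) :
    (∀ j', ∑ a, Lc (BDo D w B T γ' P) j' a * cpy T x a = 0) ↔ ∀ j, ∑ a, Lc P j a * x a = 0 := by
  have h1 : ∀ j : κ, ∑ a, Lc (BDo D w B T γ' P) (Sum.inl j) a * cpy T x a =
      ∑ a, Lc P j a * x a := by
    intro j
    rw [sum_cpy, Fintype.sum_option]
    have e2 : ∀ t' : T, Lc (BDo D w B T γ' P) (Sum.inl j) (some (Sum.inl t')) = 0 :=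
      fun _ => rfl
    simp only [e2, sum_const_zero, add_zero]
    rfl
  have h2 : ∀ b : B, ∑ a, Lc (BDo D w B T γ' P) (Sum.inr b) a * cpy T x a = 0 := by
    intro b
    rw [sum_cpy]
    have e1 : Lc (BDo D w B T γ' P) (Sum.inr b) none = if b.1 ∈ T then 1 else 0 := rfl
    have e2 : ∀ t' : T, Lc (BDo D w B T γ' P) (Sum.inr b) (some (Sum.inl t')) =
        (if b.1 ∈ ({t'.1} : Finset ι) then 1 else 0) * 1 := fun _ => (mul_one _).symm
    have e3 : ∀ e : E, Lc (BDo D w B T γ' P) (Sum.inr b) (some (Sum.inr e)) = 0 :=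
      fun e => cB_emp (P.be e) b
    simp only [e1, e2, e3, zero_mul, sum_const_zero, add_zero]
    rw [sum_one b _ 1 (fun _ _ => rfl)]
    linear_combination (if b.1 ∈ T then 1 else 0) * x none * two0
  constructor
  · intro h j
    rw [← h1 j]
    exact h (Sum.inl j)
  · rintro h (j | b)
    · rw [h1 j]
      exact h j
    · exact h2 b

/-- The row of the diagonal. -/
theorem MMt_none (P : BD κ E F) (γ : κ → ZMod 2) {x : Option E → ZMod 2}
    (h : ∀ j, ∑ a, Lc P j a * x a = 0) : ∑ a, MMt P γ none a * x a = 0 := by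
  have h1 : ∑ a, MMt P γ none a * x a = ∑ j, γ j * ∑ a, Lc P j a * x a := by
    simp only [mul_sum]
    rw [sum_comm]
    refine sum_congr rfl fun a _ => ?_
    have h2 : MMt P γ none a = ∑ j, Lc P j a * γ j := by
      rcases a with _ | e <;> rfl
    rw [h2, sum_mul]
    exact sum_congr rfl fun j _ => by ring
  rw [h1]
  exact sum_eq_zero fun j _ => by rw [h j, mul_zero]

/-- The column of the diagonal. -/
theorem MMt_none' (P : BD κ E F) (w γ : κ → ZMod 2) {y : Option F → ZMod 2}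
    (h : ∀ j, ∑ b, Lr P w γ j b * y b = 0) : ∑ b, MMt P γ b none * y b = 0 := by
  have h1 : ∑ b, MMt P γ b none * y b = ∑ j, γ j * ∑ b, Lr P w γ j b * y b := by
    simp only [mul_sum]
    rw [sum_comm]
    refine sum_congr rfl fun b _ => ?_
    have h2 : MMt P γ b none = ∑ j, Lr P w γ j b * γ j := by
      rcases b with _ | f
      · show P.kap ⬝ᵥ γ = ∑ j, (P.kap j + (1 + w ⬝ᵥ γ) * w j) * γ j
        have h3 : ∑ j, (P.kap j + (1 + w ⬝ᵥ γ) * w j) * γ j =
            P.kap ⬝ᵥ γ + (1 + w ⬝ᵥ γ) * (w ⬝ᵥ γ) := by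
          simp only [add_mul, mul_assoc, one_mul, sum_add_distrib]
          simp only [← mul_sum]
          show (∑ j, P.kap j * γ j) + ((∑ j, w j * γ j) + w ⬝ᵥ γ * ∑ j, w j * γ j) = _
          rfl
        rw [h3]
        have h4 : ∀ A : ZMod 2, (1 + A) * A = 0 := by decide
        rw [h4, add_zero]
      · rfl
    rw [h2, sum_mul]
    exact sum_congr rfl fun j _ => by ring
  rw [h1]
  exact sum_eq_zero fun j _ => by rw [h j, mul_zero]

/-- The class vectors at a prime. -/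
theorem Lc_dg {P : BD κ E F} {x : Option E → ZMod 2}
    (h : ∀ j, ∑ a, Lc P j a * x a = 0) (t : ι) :
    D.dg P.kap t * x none + ∑ e, D.dg (P.be e) t * x (some e) = 0 := by
  have h1 : D.dg P.kap t * x none + ∑ e, D.dg (P.be e) t * x (some e) =
      ∑ j, D.a t j * ∑ a, Lc P j a * x a := by
    simp only [mul_sum]
    rw [sum_comm, Fintype.sum_option]
    congr 1
    · rw [Dat2.dg, sum_mul]
      exact sum_congr rfl fun j _ => by
        show P.kap j * D.a t j * x none = D.a t j * (P.kap j * x none)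
        ring
    · refine sum_congr rfl fun e _ => ?_
      rw [Dat2.dg, sum_mul]
      exact sum_congr rfl fun j _ => by
        show P.be e j * D.a t j * x (some e) = D.a t j * (P.be e j * x (some e))
        ring
  rw [h1]
  exact sum_eq_zero fun j _ => by rw [h j, mul_zero]

theorem Lr_dg {P : BD κ E F} {γ : κ → ZMod 2} {y : Option F → ZMod 2}
    (h : ∀ j, ∑ b, Lr P w γ j b * y b = 0) (t : ι) :
    (D.dg P.kap t + (1 + w ⬝ᵥ γ) * D.dg w t) * y none +
      ∑ f, D.dg (P.bf f) t * y (some f) = 0 := by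
  have h1 : (D.dg P.kap t + (1 + w ⬝ᵥ γ) * D.dg w t) * y none +
      ∑ f, D.dg (P.bf f) t * y (some f) = ∑ j, D.a t j * ∑ b, Lr P w γ j b * y b := by
    simp only [mul_sum]
    rw [sum_comm, Fintype.sum_option]
    congr 1
    · have h2 : D.dg P.kap t + (1 + w ⬝ᵥ γ) * D.dg w t =
          D.dg (P.kap + (1 + w ⬝ᵥ γ) • w) t := by rw [dg_add, dg_smul]
      rw [h2, Dat2.dg, sum_mul]
      exact sum_congr rfl fun j _ => by
        show (P.kap j + (1 + w ⬝ᵥ γ) * w j) * D.a t j * y none =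
          D.a t j * ((P.kap j + (1 + w ⬝ᵥ γ) * w j) * y none)
        ring
    · refine sum_congr rfl fun e _ => ?_
      rw [Dat2.dg, sum_mul]
      exact sum_congr rfl fun j _ => by
        show P.bf e j * D.a t j * y (some e) = D.a t j * (P.bf e j * y (some e))
        ring
  rw [h1]
  exact sum_eq_zero fun j _ => by rw [h j, mul_zero]

include hT in
/-- **The trivial vectors of the columns.** -/
theorem tcn_off : tcn (Lc (BDo D w B T γ' P)) (MMt (BDo D w B T γ' P) γ') =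
    tcn (Lc P) (MMt P (gT D T γ')) := by
  classical
  unfold tcn
  refine card_cpy _ _ ?_ ?_
  · intro x' h
    exact Lc_B D hT γ' P h.1
  intro x
  rw [Lc_cpy D hT γ' P x]
  refine and_congr_right fun h => ?_
  have h0 : ∑ a, MMt (BDo D w B T γ' P) γ' none a * cpy T x a = 0 :=
    MMt_none _ γ' ((Lc_cpy D hT γ' P x).2 h)
  have h0' : ∑ a, MMt P (gT D T γ') none a * x a = 0 := MMt_none _ _ h
  have hs1 : ∀ t : T, ({t.1} : Finset ι) ⊆ B := fun t => singleton_subset_iff.2 (hT t.2)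
  have ht : ∀ t : T, ∑ a, MMt (BDo D w B T γ' P) γ' (some (Sum.inl t)) a * cpy T x a = 0 := by
    intro t
    rw [sum_cpy]
    have e1 : MMt (BDo D w B T γ' P) γ' (some (Sum.inl t)) none =
        D.dg w t.1 * (w ⬝ᵥ gl γ') + ga γ' t.1 := by
      have h1 := dot_cB (hs1 t) (D.dg w t.1 • w) γ'
      rw [smul_dotProduct, smul_eq_mul, sum_singleton] at h1
      exact h1
    have e2 : ∀ t' : T, MMt (BDo D w B T γ' P) γ' (some (Sum.inl t)) (some (Sum.inl t')) =
        D.s t.1 t'.1 + if t' = t then D.dg P.kap t.1 +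
          ∑ u ∈ T, D.s t.1 u + (ga γ' t.1 + D.dg w t.1 * (w ⬝ᵥ gl γ')) else 0 := fun _ => rfl
    have e3 : ∀ e : E, MMt (BDo D w B T γ' P) γ' (some (Sum.inl t)) (some (Sum.inr e)) =
        D.dg (P.be e) t.1 := fun _ => rfl
    simp only [e1, e2, e3, sum_add_distrib, sum_ite_eq', mem_univ, if_true]
    rw [sum_coe_sort T fun u => D.s t.1 u]
    linear_combination Lc_dg D h t.1 + (D.dg w t.1 * (w ⬝ᵥ gl γ') + ga γ' t.1 +
      ∑ u ∈ T, D.s t.1 u) * x none * two0
  have hf : ∀ f : F, ∑ a, MMt (BDo D w B T γ' P) γ' (some (Sum.inr f)) a * cpy T x a =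
      ∑ a, MMt P (gT D T γ') (some f) a * x a := by
    intro f
    rw [sum_cpy, Fintype.sum_option]
    have e1 : MMt (BDo D w B T γ' P) γ' (some (Sum.inr f)) none = P.bf f ⬝ᵥ gl γ' := by
      have h1 := dot_cB (empty_subset B) (P.bf f) γ'
      rw [sum_empty, add_zero] at h1
      exact h1
    have e2 : ∀ t' : T, MMt (BDo D w B T γ' P) γ' (some (Sum.inr f)) (some (Sum.inl t')) =
        D.dg (P.bf f) t'.1 := fun _ => rfl
    have e4 : MMt P (gT D T γ') (some f) none = P.bf f ⬝ᵥ gT D T γ' := rfl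
    simp only [e1, e2, e4, dot_gT]
    rw [sum_coe_sort T fun t => D.dg (P.bf f) t]
    rfl
  constructor
  · rintro h1 (_ | f)
    · exact h0'
    · rw [← hf f]
      exact h1 _
  · rintro h1 (_ | t | f)
    · exact h0
    · exact ht t
    · rw [hf f]
      exact h1 _

include hT in
theorem Lr_cpy (y : Option F → ZMod 2) :
    (∀ j', ∑ b, Lr (BDo D w B T γ' P) (cB B ∅ w) γ' j' b * cpy T y b = 0) ↔
      ∀ j, ∑ b, Lr P w (gT D T γ') j b * y b = 0 := by
  have hA : cB B ∅ w ⬝ᵥ γ' = w ⬝ᵥ gl γ' := by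
    have h1 := dot_cB (empty_subset B) w γ'
    rw [sum_empty, add_zero] at h1
    exact h1
  have h1 : ∀ j : κ, ∑ b, Lr (BDo D w B T γ' P) (cB B ∅ w) γ' (Sum.inl j) b * cpy T y b =
      ∑ b, Lr P w (gT D T γ') j b * y b := by
    intro j
    rw [sum_cpy, Fintype.sum_option]
    have e1 : Lr (BDo D w B T γ' P) (cB B ∅ w) γ' (Sum.inl j) none =
        P.kap j + (1 + w ⬝ᵥ gl γ') * w j := by
      rw [← hA]
      rfl
    have e2 : ∀ t' : T, Lr (BDo D w B T γ' P) (cB B ∅ w) γ' (Sum.inl j) (some (Sum.inl t')) =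
        D.dg w t'.1 * w j := fun _ => rfl
    have e3 : Lr P w (gT D T γ') j none = P.kap j + (1 + w ⬝ᵥ gT D T γ') * w j := rfl
    simp only [e1, e2, e3, dot_gT]
    rw [← sum_mul, sum_coe_sort T fun t => D.dg w t]
    have e4 : ∀ f : F, Lr (BDo D w B T γ' P) (cB B ∅ w) γ' (Sum.inl j) (some (Sum.inr f)) =
        Lr P w (gT D T γ') j (some f) := fun _ => rfl
    simp only [e4]
    ring
  have h2 : ∀ b : B, ∑ a, Lr (BDo D w B T γ' P) (cB B ∅ w) γ' (Sum.inr b) a *
      cpy T y a = 0 := by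
    intro b
    rw [sum_cpy]
    have e1 : Lr (BDo D w B T γ' P) (cB B ∅ w) γ' (Sum.inr b) none =
        if b.1 ∈ T then 1 else 0 := by
      have h4 : cB B ∅ w (Sum.inr b) = 0 := cB_emp w _
      show cB B T P.kap (Sum.inr b) + (1 + cB B ∅ w ⬝ᵥ γ') * cB B ∅ w (Sum.inr b) = _
      rw [h4, mul_zero, add_zero]
      rfl
    have e2 : ∀ t' : T, Lr (BDo D w B T γ' P) (cB B ∅ w) γ' (Sum.inr b) (some (Sum.inl t')) =
        (if b.1 ∈ ({t'.1} : Finset ι) then 1 else 0) * 1 := fun _ => (mul_one _).symm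
    have e3 : ∀ f : F, Lr (BDo D w B T γ' P) (cB B ∅ w) γ' (Sum.inr b) (some (Sum.inr f)) =
        0 := fun f => cB_emp (P.bf f) b
    simp only [e1, e2, e3, zero_mul, sum_const_zero, add_zero]
    rw [sum_one b _ 1 (fun _ _ => rfl)]
    linear_combination (if b.1 ∈ T then 1 else 0) * y none * two0
  constructor
  · intro h j
    rw [← h1 j]
    exact h (Sum.inl j)
  · rintro h (j | b)
    · rw [h1 j]
      exact h j
    · exact h2 b

include hT tw in
/-- **The trivial vectors of the rows.** -/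
theorem trn_off : trn (Lr (BDo D w B T γ' P) (cB B ∅ w) γ') (MMt (BDo D w B T γ' P) γ') =
    trn (Lr P w (gT D T γ')) (MMt P (gT D T γ')) := by
  classical
  unfold trn
  refine card_cpy _ _ ?_ ?_
  · intro x' h
    exact Lr_B D hT γ' P h.1
  intro y
  rw [Lr_cpy D hT γ' P y]
  refine and_congr_right fun h => ?_
  have h0 : ∑ b, MMt (BDo D w B T γ' P) γ' b none * cpy T y b = 0 :=
    MMt_none' _ (cB B ∅ w) γ' ((Lr_cpy D hT γ' P y).2 h)
  have h0' : ∑ b, MMt P (gT D T γ') b none * y b = 0 := MMt_none' _ w _ h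
  have hs1 : ∀ t : T, ({t.1} : Finset ι) ⊆ B := fun t => singleton_subset_iff.2 (hT t.2)
  have ht : ∀ t : T, ∑ b, MMt (BDo D w B T γ' P) γ' b (some (Sum.inl t)) * cpy T y b = 0 := by
    intro t
    rw [sum_cpy]
    have e1 : MMt (BDo D w B T γ' P) γ' none (some (Sum.inl t)) = ga γ' t.1 := by
      have h1 := dot_cB (hs1 t) (0 : κ → ZMod 2) γ'
      rw [zero_dotProduct, zero_add, sum_singleton] at h1
      exact h1
    have e2 : ∀ t' : T, MMt (BDo D w B T γ' P) γ' (some (Sum.inl t')) (some (Sum.inl t)) =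
        D.s t'.1 t.1 + if t = t' then D.dg P.kap t'.1 +
          ∑ u ∈ T, D.s t'.1 u + (ga γ' t'.1 + D.dg w t'.1 * (w ⬝ᵥ gl γ')) else 0 :=
      fun _ => rfl
    have e3 : ∀ f : F, MMt (BDo D w B T γ' P) γ' (some (Sum.inr f)) (some (Sum.inl t)) =
        D.dg (P.bf f) t.1 := fun _ => rfl
    have e5 : ∑ t' : T, D.s t'.1 t.1 = ∑ u ∈ T, D.s t.1 u +
        (D.dg w t.1 * ∑ u ∈ T, D.dg w u + D.dg w t.1) := by
      rw [sum_coe_sort T fun u => D.s u t.1, mul_sum]
      have h4 : ∀ u ∈ T, D.s u t.1 = D.s t.1 u + (D.dg w t.1 * D.dg w u +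
          if u = t.1 then D.dg w t.1 else 0) := by
        intro u _
        split_ifs with hu
        · rw [hu]
          have h5 : ∀ A : ZMod 2, A * A + A = 0 := by decide
          rw [h5, add_zero]
        · rw [add_zero]
          linear_combination tw u t.1 hu - D.s t.1 u * two0
      rw [sum_congr rfl h4, sum_add_distrib, sum_add_distrib, sum_ite_eq', if_pos t.2]
    simp only [e1, e2, e3, sum_add_distrib, sum_ite_eq, mem_univ, if_true]
    rw [e5]
    have h6 := Lr_dg D h t.1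
    rw [dot_gT] at h6
    linear_combination h6 + (ga γ' t.1 + ∑ u ∈ T, D.s t.1 u) * y none * two0
  have hf : ∀ e : E, ∑ b, MMt (BDo D w B T γ' P) γ' b (some (Sum.inr e)) * cpy T y b =
      ∑ b, MMt P (gT D T γ') b (some e) * y b := by
    intro e
    rw [sum_cpy, Fintype.sum_option]
    have e1 : MMt (BDo D w B T γ' P) γ' none (some (Sum.inr e)) = P.be e ⬝ᵥ gl γ' := by
      have h1 := dot_cB (empty_subset B) (P.be e) γ'
      rw [sum_empty, add_zero] at h1
      exact h1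
    have e2 : ∀ t' : T, MMt (BDo D w B T γ' P) γ' (some (Sum.inl t')) (some (Sum.inr e)) =
        D.dg (P.be e) t'.1 := fun _ => rfl
    have e4 : MMt P (gT D T γ') none (some e) = P.be e ⬝ᵥ gT D T γ' := rfl
    simp only [e1, e2, e4, dot_gT]
    rw [sum_coe_sort T fun t => D.dg (P.be e) t]
    rfl
  constructor
  · rintro h1 (_ | e)
    · exact h0'
    · rw [← hf e]
      exact h1 _
  · rintro h1 (_ | t | e)
    · exact h0
    · exact ht t
    · rw [hf e]
      exact h1 _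

include hT tw in
/-- The balance with fixed primes. -/
theorem Bal_off (h : Bal P w (gT D T γ')) : Bal (BDo D w B T γ' P) (cB B ∅ w) γ' := by
  unfold Bal at h ⊢
  rw [tcn_off D hT γ' P, trn_off D tw hT γ' P, Fintype.card_sum, Fintype.card_sum, pow_add,
    pow_add, mul_assoc, mul_assoc, h]

include hT in
theorem tv_off : tv (BDo D w B T γ' P) γ' = tv P (gT D T γ') := tcn_off D hT γ' P

end Triv

end

end Pool.Agent.Lib.MP_1a91b9_ntV.DJ
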