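import Pool.Agent.Lib.MP_1a91b9_ntV.DJ.DenJ
import Pool.Agent.Lib.MP_1a91b9_ntQ.D.ExtB

/-!
# MP_1a91b9_nt (joint density for twisted systems), part D: bordered matrices with a fixed finite set of
primes

`BDo D w B T γ' P`: the matrix of `P` on `S ∪ T`, with `S` outside `B` and `T ⊆ B`, as a bordered
matrix for the system `D.off B`; the primes of `T` become columns and rows of the border.
-/

set_option autoImplicit false
set_option linter.unusedSectionVars false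

namespace Pool.Agent.Lib.MP_1a91b9_ntV.DJ

open Finset Pool.Agent.Lib.MP_1a91b9_ntH Pool.Agent.Lib.MP_1a91b9_ntQ
  Pool.Agent.Lib.MP_1a91b9_ntQ.Da Pool.Agent.Lib.MP_1a91b9_ntV Pool.Agent.Lib.MP_1a91b9_ntM
  Pool.Agent.Lib.MP_1a91b9_ntV.DS

noncomputable section

variable {ι : Type} [DecidableEq ι] {κ : Type} [Fintype κ] [DecidableEq κ] {E : Type} [Fintype E]
  [DecidableEq E] {F : Type} [Fintype F] [DecidableEq F]

/-- The class vector `c` together with the symbols at the primes of `T`. -/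
def cB (B T : Finset ι) (c : κ → ZMod 2) : κ ⊕ B → ZMod 2 :=
  Sum.elim c fun b => if b.1 ∈ T then 1 else 0

/-- The class characters of a class. -/
def gl {B : Finset ι} (γ' : κ ⊕ B → ZMod 2) (j : κ) : ZMod 2 := γ' (Sum.inl j)

/-- The sum of the symbols at a prime of `B`. -/
def ga {B : Finset ι} (γ' : κ ⊕ B → ZMod 2) (t : ι) : ZMod 2 :=
  if h : t ∈ B then γ' (Sum.inr ⟨t, h⟩) else 0

theorem ga_coe {B : Finset ι} (γ' : κ ⊕ B → ZMod 2) (b : B) : ga γ' b.1 = γ' (Sum.inr b) := by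
  rw [ga, dif_pos b.2]

theorem sum_ind {B T : Finset ι} (hT : T ⊆ B) (f : ι → ZMod 2) :
    ∑ b : B, (if b.1 ∈ T then 1 else 0) * f b.1 = ∑ t ∈ T, f t := by
  rw [sum_coe_sort B fun b => (if b ∈ T then 1 else 0) * f b]
  simp only [ite_mul, one_mul, zero_mul]
  rw [sum_ite_mem, inter_eq_right.2 hT]

theorem dg_cB (D : Dat2 ι κ) {B T : Finset ι} (hT : T ⊆ B) (c : κ → ZMod 2) (q : Off B) :
    (D.off B).dg (cB B T c) q = D.dg c q.1 + ∑ t ∈ T, D.s q.1 t := by
  unfold Dat2.dg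
  rw [Fintype.sum_sum_type]
  congr 1
  exact sum_ind hT fun t => D.s q.1 t

theorem dot_cB {B T : Finset ι} (hT : T ⊆ B) (c : κ → ZMod 2) (γ' : κ ⊕ B → ZMod 2) :
    cB B T c ⬝ᵥ γ' = c ⬝ᵥ gl γ' + ∑ t ∈ T, ga γ' t := by
  unfold dotProduct
  rw [Fintype.sum_sum_type]
  congr 1
  rw [← sum_ind hT]
  exact sum_congr rfl fun b _ => by rw [ga_coe]; rfl

/-- The bordered matrix on `S ∪ T` as a bordered matrix of the system `D.off B`. -/
def BDo (D : Dat2 ι κ) (w : κ → ZMod 2) (B T : Finset ι) (γ' : κ ⊕ B → ZMod 2) (P : BD κ E F) :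
    BD (κ ⊕ B) (T ⊕ E) (T ⊕ F) where
  kap := cB B T P.kap
  be := Sum.elim (fun t => cB B {t.1} 0) fun e => cB B ∅ (P.be e)
  bf := Sum.elim (fun t => cB B {t.1} (D.dg w t.1 • w)) fun f => cB B ∅ (P.bf f)
  R := Matrix.of fun b a => Sum.elim
    (fun t => Sum.elim (fun t' => D.s t.1 t'.1 + if t' = t then D.dg P.kap t.1 +
      ∑ u ∈ T, D.s t.1 u + (ga γ' t.1 + D.dg w t.1 * (w ⬝ᵥ gl γ')) else 0)
      (fun e => D.dg (P.be e) t.1) a)
    (fun f => Sum.elim (fun t => D.dg (P.bf f) t.1) (fun e => P.R f e) a) b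

/-- The primes of `S` and of `T`. -/
def eUT {B T : Finset ι} (hT : T ⊆ B) (S : Finset (Off B)) :
    S ⊕ T ≃ (up S ∪ T : Finset ι) :=
  Equiv.ofBijective (Sum.elim (fun q => ⟨q.1.1, mem_union_left _ (mem_up.2 ⟨q.1.2, q.2⟩)⟩)
    fun t => ⟨t.1, mem_union_right _ t.2⟩) (by
    constructor
    · rintro (q | t) (q' | t') h
      · have h1 := congrArg Subtype.val h
        exact congrArg Sum.inl (Subtype.ext (Subtype.ext h1))
      · have h1 : q.1.1 = t'.1 := congrArg Subtype.val h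
        exact absurd (h1 ▸ hT t'.2) q.1.2
      · have h1 : t.1 = q'.1.1 := congrArg Subtype.val h
        exact absurd (h1 ▸ hT t.2) q'.1.2
      · have h1 := congrArg Subtype.val h
        exact congrArg Sum.inr (Subtype.ext h1)
    · rintro ⟨i, hi⟩
      rcases mem_union.1 hi with h | h
      · obtain ⟨h1, h2⟩ := mem_up.1 h
        exact ⟨Sum.inl ⟨⟨i, h1⟩, h2⟩, rfl⟩
      · exact ⟨Sum.inr ⟨i, h⟩, rfl⟩)

/-- The indices of the two matrices. -/
def ixE {B T : Finset ι} (hT : T ⊆ B) (S : Finset (Off B)) (E : Type) :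
    S ⊕ (T ⊕ E) ≃ (up S ∪ T : Finset ι) ⊕ E :=
  (Equiv.sumAssoc S T E).symm.trans (Equiv.sumCongr (eUT hT S) (Equiv.refl E))

theorem sum_UT {B T : Finset ι} (hT : T ⊆ B) (S : Finset (Off B))
    (f : (up S ∪ T : Finset ι) → ZMod 2) :
    ∑ l, f l = ∑ q : S, f (eUT hT S (Sum.inl q)) + ∑ t : T, f (eUT hT S (Sum.inr t)) := by
  rw [← Equiv.sum_comp (eUT hT S), Fintype.sum_sum_type]

theorem eUT_inl {B T : Finset ι} (hT : T ⊆ B) (S : Finset (Off B)) (q : S) :
    (eUT hT S (Sum.inl q)).1 = q.1.1 := rfl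

theorem eUT_inr {B T : Finset ι} (hT : T ⊆ B) (S : Finset (Off B)) (t : T) :
    (eUT hT S (Sum.inr t)).1 = t.1 := rfl

section Mat

variable (D : Dat2 ι κ) {w : κ → ZMod 2}
  (tw : ∀ p q, p ≠ q → D.s p q + D.s q p = D.dg w p * D.dg w q) {B T : Finset ι} (hT : T ⊆ B)
  {γ' : κ ⊕ B → ZMod 2} (P : BD κ E F) {S : Finset (Off B)} (hγ : clN (D.off B) S = γ')

include hγ in
theorem sum_w : ∑ q : S, D.dg w q.1.1 = w ⬝ᵥ gl γ' := by
  rw [← hγ]
  have h1 := sum_dg D w (up S)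
  rw [sum_up, ← sum_coe_sort S fun q => D.dg w q.1] at h1
  rw [h1]
  congr 1
  funext j
  exact sum_up S fun q => D.a q j

include tw hγ in
theorem sum_st {t : ι} (ht : t ∈ B) :
    ∑ q : S, D.s t q.1.1 = ga γ' t + D.dg w t * (w ⬝ᵥ gl γ') := by
  have h1 : ∀ q : S, D.s t q.1.1 = D.s q.1.1 t + D.dg w t * D.dg w q.1.1 := by
    intro q
    have hne : t ≠ q.1.1 := fun h => q.1.2 (h ▸ ht)
    have h2 := tw t q.1.1 hne
    linear_combination h2 - D.s q.1.1 t * two0
  rw [sum_congr rfl fun q _ => h1 q, sum_add_distrib, ← mul_sum, sum_w D hγ]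
  congr 1
  rw [ga, dif_pos ht, ← hγ]
  exact sum_coe_sort S fun q => D.s q.1 t

include tw hγ in
/-- The two matrices have the same values. -/
theorem NM_off (v : (up S ∪ T : Finset ι) ⊕ E → ZMod 2) (i : S ⊕ (T ⊕ F)) :
    (NM (D.off B) (BDo D w B T γ' P) S).mulVec (fun a => v (ixE hT S E a)) i =
      (NM D P (up S ∪ T)).mulVec v (ixE hT S F i) := by
  have c1 : ∀ q : S, ixE hT S E (Sum.inl q) = Sum.inl (eUT hT S (Sum.inl q)) := fun _ => rfl
  have c2 : ∀ t : T, ixE hT S E (Sum.inr (Sum.inl t)) = Sum.inl (eUT hT S (Sum.inr t)) :=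
    fun _ => rfl
  have c3 : ∀ e : E, ixE hT S E (Sum.inr (Sum.inr e)) = Sum.inr e := fun _ => rfl
  have hs1 : ∀ t : T, ({t.1} : Finset ι) ⊆ B := fun t => singleton_subset_iff.2 (hT t.2)
  rcases i with q | t | f
  · -- a row of `S`
    have c4 : ixE hT S F (Sum.inl q) = Sum.inl (eUT hT S (Sum.inl q)) := rfl
    rw [c4, NM_inl, NM_inl, sum_UT hT, Fintype.sum_sum_type]
    simp only [c1, c2, c3]
    have e1 : (D.off B).dg (BDo D w B T γ' P).kap q = D.dg P.kap q.1.1 +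
        ∑ t ∈ T, D.s q.1.1 t := dg_cB D hT P.kap q.1
    have e2 : ∀ t : T, (D.off B).dg ((BDo D w B T γ' P).be (Sum.inl t)) q = D.s q.1.1 t.1 := by
      intro t
      have h1 := dg_cB D (hs1 t) (0 : κ → ZMod 2) q.1
      rw [dg_zero, zero_add, sum_singleton] at h1
      exact h1
    have e3 : ∀ e : E, (D.off B).dg ((BDo D w B T γ' P).be (Sum.inr e)) q =
        D.dg (P.be e) q.1.1 := by
      intro e
      have h1 := dg_cB D (empty_subset B) (P.be e) q.1
      rw [sum_empty, add_zero] at h1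
      exact h1
    rw [e1]
    simp only [e2, e3, eUT_inl, eUT_inr]
    have e4 : ∀ l : S, (D.off B).s q l = D.s q.1.1 l.1.1 := fun _ => rfl
    have e5 : ∑ t : T, D.s q.1.1 t.1 * (v (Sum.inl (eUT hT S (Sum.inl q))) +
        v (Sum.inl (eUT hT S (Sum.inr t)))) =
        (∑ t ∈ T, D.s q.1.1 t) * v (Sum.inl (eUT hT S (Sum.inl q))) +
        ∑ t : T, D.s q.1.1 t.1 * v (Sum.inl (eUT hT S (Sum.inr t))) := by
      rw [← sum_coe_sort T fun t => D.s q.1.1 t, sum_mul, ← sum_add_distrib]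
      exact sum_congr rfl fun t _ => mul_add _ _ _
    simp only [e4]
    rw [e5]
    ring
  · -- a row of `T`
    have c4 : ixE hT S F (Sum.inr (Sum.inl t)) = Sum.inl (eUT hT S (Sum.inr t)) := rfl
    rw [c4, NM_inr, NM_inl, sum_UT hT, Fintype.sum_sum_type]
    simp only [c1, c2, c3, eUT_inl, eUT_inr]
    have e1 : ∀ q : S, (D.off B).dg ((BDo D w B T γ' P).bf (Sum.inl t)) q = D.s t.1 q.1.1 := by
      intro q
      have h1 := dg_cB D (hs1 t) (D.dg w t.1 • w) q.1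
      rw [dg_smul, sum_singleton] at h1
      have hne : t.1 ≠ q.1.1 := fun h => q.1.2 (h ▸ hT t.2)
      have h2 := tw t.1 q.1.1 hne
      have h3 : (D.off B).dg ((BDo D w B T γ' P).bf (Sum.inl t)) q =
          D.dg w t.1 * D.dg w q.1.1 + D.s q.1.1 t.1 := h1
      rw [h3, ← h2]
      linear_combination D.s q.1.1 t.1 * two0
    have e2 : ∀ t' : T, (BDo D w B T γ' P).R (Sum.inl t) (Sum.inl t') = D.s t.1 t'.1 +
      if t' = t then D.dg P.kap t.1 +
        ∑ u ∈ T, D.s t.1 u + (ga γ' t.1 + D.dg w t.1 * (w ⬝ᵥ gl γ')) else 0 := fun _ => rfl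
    have e3 : ∀ e : E, (BDo D w B T γ' P).R (Sum.inl t) (Sum.inr e) = D.dg (P.be e) t.1 :=
      fun _ => rfl
    have e4 := sum_st D tw hγ (hT t.2)
    have e5 : ∑ q : S, D.s t.1 q.1.1 * (v (Sum.inl (eUT hT S (Sum.inr t))) +
        v (Sum.inl (eUT hT S (Sum.inl q)))) =
        (ga γ' t.1 + D.dg w t.1 * (w ⬝ᵥ gl γ')) * v (Sum.inl (eUT hT S (Sum.inr t))) +
        ∑ q : S, D.s t.1 q.1.1 * v (Sum.inl (eUT hT S (Sum.inl q))) := by
      rw [← e4, sum_mul, ← sum_add_distrib]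
      exact sum_congr rfl fun t _ => mul_add _ _ _
    have e6 : ∑ t' : T, D.s t.1 t'.1 * (v (Sum.inl (eUT hT S (Sum.inr t))) +
        v (Sum.inl (eUT hT S (Sum.inr t')))) =
        (∑ t' ∈ T, D.s t.1 t') * v (Sum.inl (eUT hT S (Sum.inr t))) +
        ∑ t' : T, D.s t.1 t'.1 * v (Sum.inl (eUT hT S (Sum.inr t'))) := by
      rw [← sum_coe_sort T fun t' => D.s t.1 t', sum_mul, ← sum_add_distrib]
      exact sum_congr rfl fun t _ => mul_add _ _ _
    have e7 : ∀ X : ZMod 2, ∑ t' : T, (D.s t.1 t'.1 + if t' = t then X else 0) *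
        v (Sum.inl (eUT hT S (Sum.inr t'))) =
        ∑ t' : T, D.s t.1 t'.1 * v (Sum.inl (eUT hT S (Sum.inr t'))) +
        X * v (Sum.inl (eUT hT S (Sum.inr t))) := by
      intro X
      simp only [add_mul, sum_add_distrib, ite_mul, zero_mul, sum_ite_eq', mem_univ, if_true]
    simp only [e1, e2, e3]
    rw [e5, e6, e7]
    ring
  · -- a row of the border
    have c4 : ixE hT S F (Sum.inr (Sum.inr f)) = Sum.inr f := rfl
    rw [c4, NM_inr, NM_inr, sum_UT hT, Fintype.sum_sum_type]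
    simp only [c1, c2, c3, eUT_inl, eUT_inr]
    have e1 : ∀ q : S, (D.off B).dg ((BDo D w B T γ' P).bf (Sum.inr f)) q =
        D.dg (P.bf f) q.1.1 := by
      intro q
      have h1 := dg_cB D (empty_subset B) (P.bf f) q.1
      rw [sum_empty, add_zero] at h1
      exact h1
    have e2 : ∀ t : T, (BDo D w B T γ' P).R (Sum.inr f) (Sum.inl t) = D.dg (P.bf f) t.1 :=
      fun _ => rfl
    have e3 : ∀ e : E, (BDo D w B T γ' P).R (Sum.inr f) (Sum.inr e) = P.R f e := fun _ => rfl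
    simp only [e1, e2, e3]
    ring

include tw hγ hT in
/-- **The sizes of the kernels.** -/
theorem kM_off : kM (D.off B) (BDo D w B T γ' P) S = kM D P (up S ∪ T) := by
  unfold kM
  refine Fintype.card_congr ?_
  refine (Equiv.subtypeEquiv (Equiv.arrowCongr (ixE hT S E) (Equiv.refl _)).symm fun v => ?_).symm
  have h1 := NM_off D tw hT P hγ v
  constructor
  · intro h
    funext i
    refine (h1 i).trans ?_
    rw [h]
    rfl
  · intro h
    funext i
    obtain ⟨i', rfl⟩ := (ixE hT S F).surjective i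
    rw [← h1 i']
    exact congrFun h i'

end Mat

end

end Pool.Agent.Lib.MP_1a91b9_ntV.DJ
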