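import Pool.Agent.Lib.MP_1a91b9_ntV.DJ.Blk

/-!
# MP_1a91b9_nt (joint density for twisted systems), part D: the main coefficient of a class is the product
of the single main coefficients
-/

set_option autoImplicit false
set_option linter.unusedSectionVars false

namespace Pool.Agent.Lib.MP_1a91b9_ntV.DJ

open Finset Pool.Agent.Lib.MP_1a91b9_ntH Pool.Agent.Lib.MP_1a91b9_ntQ
  Pool.Agent.Lib.MP_1a91b9_ntQ.Da Pool.Agent.Lib.MP_1a91b9_ntV Pool.Agent.Lib.MP_1a91b9_ntM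
  Pool.Agent.Lib.MP_1a91b9_ntV.DS

noncomputable section

variable {A : Type} [Fintype A] [DecidableEq A] {k : A → ℕ}

/-! ### Products of subspaces -/

/-- The vector with the given blocks. -/
def glue (k : A → ℕ) : (∀ a, V2 (k a)) →ₗ[ZMod 2] V2 (∑ a, k a) where
  toFun y := fun i => y ((sgP k).symm i).1 ((sgP k).symm i).2
  map_add' _ _ := rfl
  map_smul' _ _ := rfl

/-- A block of a vector. -/
def blk (a : A) : V2 (∑ a, k a) →ₗ[ZMod 2] V2 (k a) where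
  toFun v := fun j => v (sgP k ⟨a, j⟩)
  map_add' _ _ := rfl
  map_smul' _ _ := rfl

theorem blk_glue (y : ∀ a, V2 (k a)) (a : A) : blk a (glue k y) = y a := by
  funext j
  exact congrArg (fun s : Σ a, Fin (k a) => y s.1 s.2) ((sgP k).symm_apply_apply ⟨a, j⟩)

theorem glue_blk (v : V2 (∑ a, k a)) : glue k (fun a => blk a v) = v := by
  funext i
  exact congrArg v ((sgP k).apply_symm_apply i)

theorem glue_dot (y z : ∀ a, V2 (k a)) : glue k y ⬝ᵥ glue k z = ∑ a, y a ⬝ᵥ z a := by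
  rw [dotProduct, sum_sgP]
  refine sum_congr rfl fun a _ => ?_
  rw [dotProduct]
  refine sum_congr rfl fun j _ => ?_
  have h1 := congrFun (blk_glue y a) j
  have h2 := congrFun (blk_glue z a) j
  have h3 : blk a (glue k y) j = glue k y (sgP k ⟨a, j⟩) := rfl
  have h4 : blk a (glue k z) j = glue k z (sgP k ⟨a, j⟩) := rfl
  rw [← h3, ← h4, h1, h2]

theorem toL_eq (l : LabP k) : toL k l = (glue k fun a => (l a).1, glue k fun a => (l a).2) := rfl

/-- The product of subspaces. -/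
def PX (Y : ∀ a, Sb (k a)) : Sb (∑ a, k a) where
  carrier := {v | ∀ a, blk a v ∈ Y a}
  add_mem' := by
    intro v w hv hw a
    rw [map_add]
    exact (Y a).add_mem (hv a) (hw a)
  zero_mem' := fun a => by
    rw [map_zero]
    exact (Y a).zero_mem
  smul_mem' := by
    intro c v hv a
    rw [map_smul]
    exact (Y a).smul_mem c (hv a)

theorem mem_PX {Y : ∀ a, Sb (k a)} {v : V2 (∑ a, k a)} : v ∈ PX Y ↔ ∀ a, blk a v ∈ Y a := Iff.rfl

theorem glue_mem_PX {Y : ∀ a, Sb (k a)} {y : ∀ a, V2 (k a)} :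
    glue k y ∈ PX Y ↔ ∀ a, y a ∈ Y a := by
  rw [mem_PX]
  simp only [blk_glue]

theorem single_mem_Y {Y : ∀ a, Sb (k a)} {a : A} {x : V2 (k a)} (hx : x ∈ Y a) (b : A) :
    (Pi.single a x : ∀ a, V2 (k a)) b ∈ Y b := by
  by_cases h : b = a
  · subst h
    rw [Pi.single_eq_same]
    exact hx
  · rw [Pi.single_eq_of_ne h]
    exact (Y b).zero_mem

theorem glue_mem_pp {Y : ∀ a, Sb (k a)} {y : ∀ a, V2 (k a)} :
    glue k y ∈ pp (PX Y) ↔ ∀ a, y a ∈ pp (Y a) := by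
  constructor
  · intro h a x hx
    have h1 := h (glue k (Pi.single a x)) (glue_mem_PX.2 fun b => single_mem_Y hx b)
    rw [glue_dot, sum_eq_single a] at h1
    · rwa [Pi.single_eq_same] at h1
    · intro b _ hb
      rw [Pi.single_eq_of_ne hb, dotProduct_zero]
    · exact fun h => absurd (mem_univ _) h
  · intro h x hx
    rw [← glue_blk x, glue_dot]
    exact sum_eq_zero fun a _ => h a _ (hx a)

theorem toL_mem_WX {Y : ∀ a, Sb (k a)} {l : LabP k} :
    toL k l ∈ WX (PX Y) ↔ ∀ a, l a ∈ WX (Y a) := by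
  rw [mem_WX, toL_eq]
  simp only [mem_WX, glue_mem_PX, glue_mem_pp]
  exact ⟨fun h a => ⟨h.1 a, h.2 a⟩, fun h => ⟨fun a => (h a).1, fun a => (h a).2⟩⟩

theorem PX_inj : Function.Injective (PX (k := k)) := by
  intro Y Z h
  funext a
  ext x
  have h1 : ∀ V : ∀ a, Sb (k a), x ∈ V a ↔ glue k (Pi.single a x) ∈ PX V := by
    intro V
    rw [glue_mem_PX]
    constructor
    · exact fun hx b => single_mem_Y hx b
    · intro hx
      have := hx a
      rwa [Pi.single_eq_same] at this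
  rw [h1 Y, h1 Z, h]

theorem exists_PX {X : Sb (∑ a, k a)}
    (h : ∀ a, ∀ v ∈ X, glue k (Pi.single a (blk a v)) ∈ X) : ∃ Y, PX Y = X := by
  refine ⟨fun a => X.comap ((glue k).comp (LinearMap.single (ZMod 2) (fun a => V2 (k a)) a)), ?_⟩
  ext v
  rw [mem_PX]
  constructor
  · intro hv
    have h1 : v = ∑ a, glue k (Pi.single a (blk a v)) := by
      rw [← map_sum]
      have h2 : ∑ a, (Pi.single a (blk a v) : ∀ a, V2 (k a)) = fun a => blk a v := by
        funext b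
        rw [Finset.sum_apply, sum_eq_single b]
        · rw [Pi.single_eq_same]
        · intro a _ hab
          rw [Pi.single_eq_of_ne hab.symm]
        · exact fun h => absurd (mem_univ _) h
      rw [h2, glue_blk]
    rw [h1]
    exact X.sum_mem fun a _ => hv a
  · intro hv a
    exact h a v hv

/-! ### The condition -/

variable {κ : Type} [Fintype κ] [DecidableEq κ]
  {E F : A → Type} [∀ a, Fintype (E a)] [∀ a, DecidableEq (E a)] [∀ a, Fintype (F a)]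
  [∀ a, DecidableEq (F a)]

/-- The condition for one matrix. -/
def Cnd {E : Type} [Fintype E] {F : Type} [Fintype F] {k : ℕ} (P : BD κ E F) (w γ : κ → ZMod 2)
    (X : Sb k) (u : Lab2 k) (m : BL k E F) : Prop :=
  ∀ l ∈ sh2 u (WX X), cN P m l + cN P m u = ((1 + w ⬝ᵥ γ) * (u.2 ⬝ᵥ (l.1 + u.1))) • w

theorem Cnd_iff {E : Type} [Fintype E] {F : Type} [Fintype F] {k : ℕ} (P : BD κ E F)
    (w γ : κ → ZMod 2) (X : Sb k) (u : Lab2 k) (m : BL k E F) :
    Cnd P w γ X u m ↔ ∀ h ∈ WX X, cN P m (h + u) + cN P m u =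
      ((1 + w ⬝ᵥ γ) * (u.2 ⬝ᵥ h.1)) • w := by
  constructor
  · intro H h hh
    have h1 := H (h + u) (by rw [mem_sh2, l2_add_add]; exact hh)
    have h2 : (h + u).1 + u.1 = h.1 := by
      rw [Prod.fst_add, add_assoc, fun_add_self, add_zero]
    rwa [h2] at h1
  · intro H l hl
    rw [mem_sh2] at hl
    have h1 := H _ hl
    rwa [l2_add_add, Prod.fst_add] at h1

/-- The condition for the product. -/
def CndJ (P : ∀ a, BD κ (E a) (F a)) (w γ : κ → ZMod 2) (X : Sb (∑ a, k a))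
    (u : Lab2 (∑ a, k a)) (m : BLP k E F) : Prop :=
  ∀ l ∈ sh2 u (WX X), cL P m l + cL P m u = ((1 + w ⬝ᵥ γ) * (u.2 ⬝ᵥ (l.1 + u.1))) • w

theorem CndJ_iff (P : ∀ a, BD κ (E a) (F a)) (w γ : κ → ZMod 2) (X : Sb (∑ a, k a))
    (u : LabP k) (m : BLP k E F) :
    CndJ P w γ X (eqL k u) m ↔ ∀ h : LabP k, toL k h ∈ WX X → cJ P m (h + u) + cJ P m u =
      ((1 + w ⬝ᵥ γ) * ∑ a, (u a).2 ⬝ᵥ (h a).1) • w := by
  have hd : ∀ h : LabP k, (eqL k u).2 ⬝ᵥ (eqL k h).1 = ∑ a, (u a).2 ⬝ᵥ (h a).1 := fun h =>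
    glue_dot (fun a => (u a).2) fun a => (h a).1
  constructor
  · intro H h hh
    have h1 := H (eqL k h + eqL k u) (by rw [mem_sh2, l2_add_add]; exact hh)
    have h2 : (eqL k h + eqL k u).1 + (eqL k u).1 = (eqL k h).1 := by
      rw [Prod.fst_add, add_assoc, fun_add_self, add_zero]
    have h3 : eqL k h + eqL k u = eqL k (h + u) := rfl
    rw [h2, hd, h3, cL_eqL, cL_eqL] at h1
    exact h1
  · intro H l hl
    obtain ⟨l', rfl⟩ := (eqL k).surjective l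
    rw [mem_sh2] at hl
    have h1 := H (l' + u) hl
    rw [lp_add_add] at h1
    rw [cL_eqL, cL_eqL, h1]
    have h4 : (eqL k l').1 + (eqL k u).1 = (eqL k (l' + u)).1 := rfl
    rw [h4, hd]

theorem CndJ_PX (P : ∀ a, BD κ (E a) (F a)) (w γ : κ → ZMod 2) (Y : ∀ a, Sb (k a))
    (u : LabP k) (m : BLP k E F) :
    CndJ P w γ (PX Y) (eqL k u) m ↔ ∀ a, Cnd (P a) w γ (Y a) (u a) (m a) := by
  rw [CndJ_iff]
  simp only [toL_mem_WX, Cnd_iff]
  constructor
  · intro H a x hx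
    have h1 := H (Pi.single a x) fun b => by
      by_cases h : b = a
      · subst h
        rw [Pi.single_eq_same]
        exact hx
      · rw [Pi.single_eq_of_ne h]
        exact WX_zero _
    have h2 : cJ P m (Pi.single a x + u) + cJ P m u = cN (P a) (m a) (x + u a) +
        cN (P a) (m a) (u a) := by
      unfold cJ
      rw [← sum_add_distrib, sum_eq_single a]
      · rw [Pi.add_apply, Pi.single_eq_same]
      · intro b _ hb
        rw [Pi.add_apply, Pi.single_eq_of_ne hb, zero_add]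
        exact fun_add_self _
      · exact fun h => absurd (mem_univ _) h
    have h3 : ∑ b, (u b).2 ⬝ᵥ ((Pi.single a x : LabP k) b).1 = (u a).2 ⬝ᵥ x.1 := by
      rw [sum_eq_single a]
      · rw [Pi.single_eq_same]
      · intro b _ hb
        rw [Pi.single_eq_of_ne hb]
        exact dotProduct_zero _
      · exact fun h => absurd (mem_univ _) h
    rw [h2, h3] at h1
    exact h1
  · intro H h hh
    have h1 : ∀ a, cN (P a) (m a) ((h + u) a) + cN (P a) (m a) (u a) =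
        ((1 + w ⬝ᵥ γ) * ((u a).2 ⬝ᵥ (h a).1)) • w := fun a => H a _ (hh a)
    unfold cJ
    rw [← sum_add_distrib, sum_congr rfl fun a _ => h1 a, ← sum_smul, mul_sum]

/-- If the condition holds then the subspace is a product. -/
theorem CndJ_prod (P : ∀ a, BD κ (E a) (F a)) {w : κ → ZMod 2} (hw : w ≠ 0)
    (hS : Sep w fun a => (P a).kap) (γ : κ → ZMod 2) {X : Sb (∑ a, k a)} {u : Lab2 (∑ a, k a)}
    {m : BLP k E F} (h : CndJ P w γ X u m) : ∃ Y, PX Y = X := by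
  obtain ⟨u', rfl⟩ := (eqL k).surjective u
  rw [CndJ_iff] at h
  have hW := WX_mx X
  have hst := hst_of P m hW u' ⟨_, fun x hx => h x (mem_pre.1 hx)⟩
  refine exists_PX fun a v hv => ?_
  have h1 : (fun a => (blk a v, 0) : LabP k) ∈ pre k (WX X) := by
    rw [mem_pre, toL_eq, mem_WX]
    refine ⟨?_, ?_⟩
    · show glue k (fun a => blk a v) ∈ X
      rw [glue_blk]
      exact hv
    · show glue k 0 ∈ pp X
      rw [map_zero]
      exact (pp X).zero_mem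
  have h2 := block_mem hw hS hW hst a h1
  rw [mem_pre, toL_eq, mem_WX] at h2
  have h3 : (fun b => ((Pi.single a (blk a v, 0) : LabP k) b).1) =
      (Pi.single a (blk a v) : ∀ a, V2 (k a)) := by
    funext b
    by_cases hb : b = a
    · subst hb
      rw [Pi.single_eq_same, Pi.single_eq_same]
    · rw [Pi.single_eq_of_ne hb, Pi.single_eq_of_ne hb]
      rfl
  have h4 := h2.1
  rw [← h3]
  exact h4

/-! ### The value of the main coefficient -/

open Classical in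
/-- The sum over the borders and the base points, for one matrix. -/
def ZU {E : Type} [Fintype E] [DecidableEq E] {F : Type} [Fintype F] [DecidableEq F] {k : ℕ}
    (P : BD κ E F) (w γ : κ → ZMod 2) (X : Sb k) : ℝ :=
  ∑ u : Lab2 k, ∑ m : BL k E F, sg (RG P m) *
    (if Cnd P w γ X u m then sg (cN P m u ⬝ᵥ γ) else 0)

theorem ZU_eq {E : Type} [Fintype E] [DecidableEq E] {F : Type} [Fintype F] [DecidableEq F]
    {k : ℕ} (P : BD κ E F) (w γ : κ → ZMod 2)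
    (hT : 2 ^ Fintype.card E * trn (Lr P w γ) (MMt P γ) =
      2 ^ Fintype.card F * tcn (Lc P) (MMt P γ)) (X : Sb k) :
    ZU P w γ X = (2 ^ (Fintype.card F + 1) * (tcn (Lc P) (MMt P γ) : ℝ)) ^ k := by
  classical
  obtain ⟨t, ht⟩ : ∃ t : ℕ, t = tcn (Lc P) (MMt P γ) := ⟨_, rfl⟩
  have hr : fr (Lr P w γ) (MMt P γ) = 2 ^ (Fintype.card F + 1) * (t : ℝ) := by
    rw [fr_eq, Fintype.card_option, pow_succ, pow_succ, ht]
    have h4 : ((2 ^ Fintype.card E * trn (Lr P w γ) (MMt P γ) : ℕ) : ℝ) =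
        ((2 ^ Fintype.card F * tcn (Lc P) (MMt P γ) : ℕ) : ℝ) := by rw [hT]
    push_cast at h4
    linear_combination 2 * h4
  have hc : fc (Lc P) (MMt P γ) = 2 ^ (Fintype.card F + 1) * (t : ℝ) := by
    rw [fc_eq, Fintype.card_option, ht]
  rw [← ht, ← ZX_eq (Lc P) (Lr P w γ) (MMt P γ) hr hc X]
  unfold ZX ZU
  rw [← Fintype.sum_prod_type', ← Fintype.sum_prod_type', ← Equiv.sum_comp (eqv k E F)]
  refine sum_congr rfl fun p _ => ?_
  obtain ⟨u, m⟩ := p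
  show sg (RG P m) * (if Cnd P w γ X u m then sg (cN P m u ⬝ᵥ γ) else 0) =
    if (∀ j, ∑ a, Lc P j a • xo m u a ∈ X) ∧ (∀ j, ∑ b, Lr P w γ j b • yo m u b ∈ pp X) then
      sg (ex3 (MMt P γ) (xo m u) (yo m u)) else 0
  rw [← ex_eq, sg2_add]
  have h1 : Cnd P w γ X u m ↔ (∀ j, ∑ a, Lc P j a • xo m u a ∈ X) ∧
      ∀ j, ∑ b, Lr P w γ j b • yo m u b ∈ pp X := cond_WX P w γ X u m
  rw [if_congr h1 rfl rfl]
  split_ifs
  · rfl
  · rw [mul_zero]

open Classical in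
/-- The sum over the borders and the base points, for the product. -/
def ZJ (P : ∀ a, BD κ (E a) (F a)) (w γ : κ → ZMod 2) (X : Sb (∑ a, k a)) : ℝ :=
  ∑ u : Lab2 (∑ a, k a), ∑ m : BLP k E F, sg (RGJ P m) *
    (if CndJ P w γ X u m then sg (cL P m u ⬝ᵥ γ) else 0)

theorem dot_fsum (s : Finset A) (c : A → κ → ZMod 2) (γ : κ → ZMod 2) :
    (∑ a ∈ s, c a) ⬝ᵥ γ = ∑ a ∈ s, c a ⬝ᵥ γ := by
  rw [sum_dotProduct]

theorem ZJ_PX (P : ∀ a, BD κ (E a) (F a)) (w γ : κ → ZMod 2) (Y : ∀ a, Sb (k a)) :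
    ZJ P w γ (PX Y) = ∏ a, ZU (P a) w γ (Y a) := by
  classical
  unfold ZJ ZU
  rw [Finset.prod_univ_sum, Fintype.piFinset_univ, ← Equiv.sum_comp (eqL k)]
  refine sum_congr rfl fun u _ => ?_
  rw [Finset.prod_univ_sum, Fintype.piFinset_univ]
  refine sum_congr rfl fun m _ => ?_
  rw [prod_mul_distrib, RGJ, sg2_sum]
  congr 1
  rw [if_congr (CndJ_PX P w γ Y u m) rfl rfl]
  split_ifs with h
  · rw [cL_eqL, cJ, dot_fsum, sg2_sum]
    exact prod_congr rfl fun a _ => (if_pos (h a)).symm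
  · push Not at h
    obtain ⟨a, ha⟩ := h
    exact (prod_eq_zero (mem_univ a) (if_neg ha)).symm

theorem sum_ZJ (P : ∀ a, BD κ (E a) (F a)) {w : κ → ZMod 2} (hw : w ≠ 0)
    (hS : Sep w fun a => (P a).kap) (γ : κ → ZMod 2) :
    ∑ X : Sb (∑ a, k a), ZJ P w γ X = ∏ a, ∑ Y : Sb (k a), ZU (P a) w γ Y := by
  classical
  rw [Finset.prod_univ_sum, Fintype.piFinset_univ]
  have h1 : ∑ X : Sb (∑ a, k a), ZJ P w γ X = ∑ X ∈ univ.image (PX (k := k)), ZJ P w γ X := by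
    refine (sum_subset (subset_univ _) fun X _ hX => ?_).symm
    unfold ZJ
    refine sum_eq_zero fun u _ => sum_eq_zero fun m _ => ?_
    rw [if_neg, mul_zero]
    intro h
    obtain ⟨Y, hY⟩ := CndJ_prod P hw hS γ h
    exact hX (mem_image.2 ⟨Y, mem_univ _, hY⟩)
  rw [h1, sum_image fun _ _ _ _ h => PX_inj h]
  exact sum_congr rfl fun Y _ => ZJ_PX P w γ Y

/-- The contribution of a maximal unlinked set. -/
def mCJ (P : ∀ a, BD κ (E a) (F a)) (w γ : κ → ZMod 2) (U : Finset (Lab2 (∑ a, k a)))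
    (m : BLP k E F) : ℂ :=
  ∑ c0 : κ → ZMod 2, e2 (c0 ⬝ᵥ γ) * ∑ ce : Lab2 (∑ a, k a) → ZMod 2,
    Fh PhiQ ce * iN (ccG (cL P) w c0 m ce) U

open Classical in
theorem mCJ_eq (P : ∀ a, BD κ (E a) (F a)) {w : κ → ZMod 2} (hw : w ≠ 0)
    (hS : Sep w fun a => (P a).kap) (γ : κ → ZMod 2)
    {U : Finset (Lab2 (∑ a, k a))} (hU : U ∈ UsN (∑ a, k a)) {u : Lab2 (∑ a, k a)} (hu : u ∈ U)
    (m : BLP k E F) :
    mCJ P w γ U m = ((if bb0 (sh2 u U) ∧ ∀ l ∈ U, cL P m l + cL P m u =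
      ((1 + w ⬝ᵥ γ) * (u.2 ⬝ᵥ (l.1 + u.1))) • w then sg (cL P m u ⬝ᵥ γ) else 0 : ℝ) : ℂ) := by
  have h1 := mainU2 hU hu hw γ (cL P m) (hc_of P m hw hS hU hu)
  have h2 : mCJ P w γ U m = ∑ c0 : κ → ZMod 2, e2 (c0 ⬝ᵥ γ) *
      ∑ ce : Lab2 (∑ a, k a) → ZMod 2, Fh PhiQ ce *
        (if ∀ l ∈ U, c0 + cL P m l + ce l • w = 0 then 1 else 0) := by
    unfold mCJ iN ccG
    rfl
  rw [h2, h1]
  split_ifs
  · rfl
  · rfl

theorem TGJ_sum (k : A → ℕ) (P : ∀ a, BD κ (E a) (F a)) (w γ : κ → ZMod 2) :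
    TGJ k P w γ = ∑ U ∈ UsN (∑ a, k a), ∑ m : BLP k E F, e2 (RGJ P m) * mCJ P w γ U m := by
  unfold TGJ TNJ TNG mCJ
  simp only [mul_sum]
  have h1 : ∀ (c0 : κ → ZMod 2),
      ∑ m : BLP k E F, ∑ ce : Lab2 (∑ a, k a) → ZMod 2, ∑ U ∈ UsN (∑ a, k a), e2 (c0 ⬝ᵥ γ) *
        (e2 (RGJ P m) * Fh PhiQ ce * iN (ccG (cL P) w c0 m ce) U) =
      ∑ U ∈ UsN (∑ a, k a), ∑ m : BLP k E F, ∑ ce : Lab2 (∑ a, k a) → ZMod 2,
        e2 (RGJ P m) * (e2 (c0 ⬝ᵥ γ) * (Fh PhiQ ce * iN (ccG (cL P) w c0 m ce) U)) := by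
    intro c0
    have h2 : ∀ m : BLP k E F, ∑ ce : Lab2 (∑ a, k a) → ZMod 2, ∑ U ∈ UsN (∑ a, k a),
        e2 (c0 ⬝ᵥ γ) * (e2 (RGJ P m) * Fh PhiQ ce * iN (ccG (cL P) w c0 m ce) U) =
        ∑ U ∈ UsN (∑ a, k a), ∑ ce : Lab2 (∑ a, k a) → ZMod 2, e2 (RGJ P m) * (e2 (c0 ⬝ᵥ γ) *
          (Fh PhiQ ce * iN (ccG (cL P) w c0 m ce) U)) := by
      intro m
      rw [sum_comm]
      exact sum_congr rfl fun U _ => sum_congr rfl fun ce _ => by ring
    rw [sum_congr rfl fun m _ => h2 m, sum_comm]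
  rw [sum_congr rfl fun c0 _ => h1 c0, sum_comm]
  refine sum_congr rfl fun U _ => ?_
  rw [sum_comm]

open Classical in
/-- **The main coefficient of a class.** -/
theorem TGJ_eq (k : A → ℕ) (P : ∀ a, BD κ (E a) (F a)) {w : κ → ZMod 2} (hw : w ≠ 0)
    (hS : Sep w fun a => (P a).kap) (γ : κ → ZMod 2)
    (hT : ∀ a, 2 ^ Fintype.card (E a) * trn (Lr (P a) w γ) (MMt (P a) γ) =
      2 ^ Fintype.card (F a) * tcn (Lc (P a)) (MMt (P a) γ)) :
    TGJ k P w γ = ((∏ a, (tcn (Lc (P a)) (MMt (P a) γ) ^ k a * gN (k a) 0) : ℕ) : ℂ) *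
      ∏ a, ((2 : ℂ) ^ k a) ^ Fintype.card (F a) := by
  -- the real form
  let g : Finset (Lab2 (∑ a, k a)) → ℝ := fun U => ∑ m : BLP k E F,
    sg (RGJ P m) * (mCJ P w γ U m).re
  have h1 : TGJ k P w γ = ((∑ U ∈ MU (∑ a, k a), g U : ℝ) : ℂ) := by
    rw [TGJ_sum, UsN_eq]
    push_cast
    refine sum_congr rfl fun U hU => ?_
    simp only [g]
    push_cast
    refine sum_congr rfl fun m _ => ?_
    have hU' : U ∈ UsN (∑ a, k a) := by rw [UsN_eq]; exact hU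
    have hne : U.Nonempty := by
      rw [← card_pos, (mem_UsN.1 hU').2]
      positivity
    obtain ⟨u, hu⟩ := hne
    rw [mCJ_eq P hw hS γ hU' hu m, Complex.ofReal_re]
    rfl
  -- the contribution of a subspace
  have h2 : ∀ W ∈ Lgs2 (∑ a, k a), ∑ u : Lab2 (∑ a, k a), g (sh2 u W) =
      if bb0 W then ∑ u : Lab2 (∑ a, k a), ∑ m : BLP k E F, sg (RGJ P m) *
        (if ∀ l ∈ sh2 u W, cL P m l + cL P m u =
          ((1 + w ⬝ᵥ γ) * (u.2 ⬝ᵥ (l.1 + u.1))) • w then sg (cL P m u ⬝ᵥ γ) else 0) else 0 := by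
    intro W hW
    rw [mem_Lgs2] at hW
    have h3 : ∀ u : Lab2 (∑ a, k a), g (sh2 u W) = if bb0 W then ∑ m : BLP k E F,
        sg (RGJ P m) * (if ∀ l ∈ sh2 u W, cL P m l + cL P m u =
          ((1 + w ⬝ᵥ γ) * (u.2 ⬝ᵥ (l.1 + u.1))) • w then sg (cL P m u ⬝ᵥ γ) else 0) else 0 := by
      intro u
      have hU : sh2 u W ∈ UsN (∑ a, k a) := by
        rw [mem_UsN]
        exact ⟨Unl_sh2 hW.unl, by rw [card_sh2, hW.card]⟩
      have hu : u ∈ sh2 u W := by
        rw [mem_sh2, l2_add_self]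
        exact hW.zero
      have h4 : ∀ m : BLP k E F, (mCJ P w γ (sh2 u W) m).re = if bb0 W then
          (if ∀ l ∈ sh2 u W, cL P m l + cL P m u =
            ((1 + w ⬝ᵥ γ) * (u.2 ⬝ᵥ (l.1 + u.1))) • w then sg (cL P m u ⬝ᵥ γ) else 0) else 0 := by
        intro m
        rw [mCJ_eq P hw hS γ hU hu m, Complex.ofReal_re, sh2_sh2]
        by_cases hb : bb0 W
        · rw [if_pos hb]
          exact if_congr (and_iff_right hb) rfl rfl
        · rw [if_neg hb, if_neg fun h => hb h.1]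
      show ∑ m : BLP k E F, sg (RGJ P m) * (mCJ P w γ (sh2 u W) m).re = _
      simp only [h4]
      by_cases hb : bb0 W
      · simp only [if_pos hb]
      · simp only [if_neg hb, mul_zero, sum_const_zero]
    rw [sum_congr rfl fun u _ => h3 u]
    by_cases hb : bb0 W
    · simp only [if_pos hb]
    · simp only [if_neg hb, sum_const_zero]
  have h4 := double_count_w (k := ∑ a, k a) g
  have h5 : ∀ X : Sb (∑ a, k a), ∑ u : Lab2 (∑ a, k a), ∑ m : BLP k E F, sg (RGJ P m) *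
        (if ∀ l ∈ sh2 u (WX X), cL P m l + cL P m u =
          ((1 + w ⬝ᵥ γ) * (u.2 ⬝ᵥ (l.1 + u.1))) • w then sg (cL P m u ⬝ᵥ γ) else 0) =
      ZJ P w γ X := fun X => sum_congr rfl fun u _ => sum_congr rfl fun m _ =>
        congrArg (fun t => sg (RGJ P m) * t) (if_congr Iff.rfl rfl rfl)
  rw [sum_congr rfl h2, sum_bb (fun W => ∑ u : Lab2 (∑ a, k a), ∑ m : BLP k E F,
      sg (RGJ P m) * (if ∀ l ∈ sh2 u W, cL P m l + cL P m u =
          ((1 + w ⬝ᵥ γ) * (u.2 ⬝ᵥ (l.1 + u.1))) • w then sg (cL P m u ⬝ᵥ γ) else 0)),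
    sum_congr rfl fun X _ => h5 X, sum_ZJ P hw hS γ] at h4
  have h6 : ∀ a, ∑ Y : Sb (k a), ZU (P a) w γ Y = (2 : ℝ) ^ k a *
      (((tcn (Lc (P a)) (MMt (P a) γ) ^ k a * gN (k a) 0 : ℕ) : ℝ) *
        ((2 : ℝ) ^ k a) ^ Fintype.card (F a)) := by
    intro a
    rw [sum_congr rfl fun Y _ => ZU_eq (P a) w γ (hT a) Y, sum_const, card_univ, card_Sb,
      nsmul_eq_mul]
    push_cast
    rw [mul_pow, ← pow_mul, ← pow_mul, add_mul, pow_add, mul_comm (Fintype.card (F a)) (k a),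
      one_mul]
    ring
  rw [prod_congr rfl fun a _ => h6 a, prod_mul_distrib, prod_pow_eq_pow_sum] at h4
  have h7 : (2 ^ (∑ a, k a) : ℝ) ≠ 0 := by positivity
  have h8 := mul_left_cancel₀ h7 h4
  rw [h1, h8, prod_mul_distrib]
  push_cast
  rfl

end

end Pool.Agent.Lib.MP_1a91b9_ntV.DJ
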